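import Pool.Agent.helper18.VZ.TimeN
import Pool.Agent.helper18.BAS.Fin

/-!
# VZ: theorem V and the basins of the cycles
-/

namespace Pool.Agent.helper18.VZ

open Finset Filter Topology Pool.Agent.helper4.BAS Pool.Agent.helper18.BAS

/-- The integers `n` without an iterate below `Z` in absolute value in the first `7 log |n|` steps. -/
def Late (Z : ℝ) : Set ℤ := {n : ℤ | ¬ ∃ k : ℕ, (k : ℝ) ≤ 7 * Real.log |(n : ℝ)| ∧ |((T^[k] n : ℤ) : ℝ)| < Z}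

theorem V_both : ∃ C b : ℝ, 0 < C ∧ 0 < b ∧ ∀ s : ℤ, (s = 1 ∨ s = -1) → ∀ (X : ℕ) (Z : ℝ), 1 ≤ X → 1 ≤ Z →
    (cnt s (Late Z) X : ℝ) ≤ C * X / Z ^ b := by
  obtain ⟨C1, b1, hC1, hb1, h1⟩ := VN (s := 1) (e := 0) (Or.inl ⟨rfl, rfl⟩)
  obtain ⟨C2, b2, hC2, hb2, h2⟩ := VN (s := -1) (e := 1) (Or.inr ⟨rfl, rfl⟩)
  refine ⟨max C1 C2, min b1 b2, lt_max_of_lt_left hC1, lt_min hb1 hb2, ?_⟩
  intro s hs X Z hX hZ
  have hZ0 : 0 < Z := by linarith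
  have key : ∀ C' b' : ℝ, 0 < C' → C' ≤ max C1 C2 → min b1 b2 ≤ b' →
      C' * X / Z ^ b' ≤ max C1 C2 * X / Z ^ (min b1 b2) := by
    intro C' b' hC' hC hb
    have e1 : Z ^ (min b1 b2) ≤ Z ^ b' := Real.rpow_le_rpow_of_exponent_le hZ hb
    have e2 : 0 < Z ^ (min b1 b2) := Real.rpow_pos_of_pos hZ0 _
    apply div_le_div₀ (by positivity) _ e2 e1
    exact mul_le_mul_of_nonneg_right hC (Nat.cast_nonneg _)
  have hlog : ∀ n : ℕ, |((s * (n : ℤ) : ℤ) : ℝ)| = n := by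
    intro n
    have := abs_smul hs n
    exact_mod_cast this
  unfold cnt Late
  rcases hs with rfl | rfl
  · refine le_trans ?_ (key C1 b1 hC1 (le_max_left _ _) (min_le_left _ _))
    refine le_trans (le_of_eq ?_) (h1 X Z hX hZ)
    congr 2
    ext n
    simp only [mem_filter, Set.mem_ofPred_eq, hlog]
  · refine le_trans ?_ (key C2 b2 hC2 (le_max_right _ _) (min_le_right _ _))
    refine le_trans (le_of_eq ?_) (h2 X Z hX hZ)
    congr 2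
    ext n
    simp only [mem_filter, Set.mem_ofPred_eq, hlog]

theorem dens_le {s : ℤ} (hs : s = 1 ∨ s = -1) {S : Set ℤ} (hS : AInv S) {b : ℝ}
    (h : ∀ X : ℕ, 1 ≤ X → (cnt s S X : ℝ) ≤ b * X) : dens s S ≤ b := by
  refine le_of_tendsto (tendsto_dens' hs hS) ?_
  filter_upwards [eventually_ge_atTop 1] with X hX0
  have hX1 : (0 : ℝ) < X := by exact_mod_cast hX0
  rw [div_le_iff₀ hX1]
  exact h X hX0

theorem dens_far {C b : ℝ} (hV : ∀ s : ℤ, (s = 1 ∨ s = -1) → ∀ (X : ℕ) (Z : ℝ), 1 ≤ X → 1 ≤ Z →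
    (cnt s (Late Z) X : ℝ) ≤ C * X / Z ^ b) {s : ℤ} (hs : s = 1 ∨ s = -1) {S : Set ℤ} (hS : BAS.Inv S)
    {Z : ℝ} (hZ : 1 ≤ Z) (h : ∀ n ∈ S, Z ≤ |(n : ℝ)|) : dens s S ≤ C / Z ^ b := by
  refine dens_le hs ⟨0, fun n _ => hS n⟩ fun X hX => ?_
  have h1 : cnt s S X ≤ cnt s (Late Z) X := by
    refine cnt_mono s (fun n hn => ?_) X
    rintro ⟨k, _, hk⟩
    have h2 := h _ ((inv_iter hS k n).2 hn)
    linarith
  have h2 : (cnt s S X : ℝ) ≤ cnt s (Late Z) X := by exact_mod_cast h1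
  refine (h2.trans (hV s hs X Z hX hZ)).trans (le_of_eq (by ring))

/-- The union of the basins of the cycles outside `F`. -/
def Rest (F : Finset (Set ℤ)) : Set ℤ := {n : ℤ | ∃ c : Set ℤ, IsCycle c ∧ c ∉ F ∧ n ∈ Basin c}

theorem inv_rest (F : Finset (Set ℤ)) : BAS.Inv (Rest F) := by
  intro n
  constructor
  · rintro ⟨c, hc, hF, hn⟩
    exact ⟨c, hc, hF, (inv_basin hc n).1 hn⟩
  · rintro ⟨c, hc, hF, hn⟩
    exact ⟨c, hc, hF, (inv_basin hc n).2 hn⟩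

theorem rest_small {C b : ℝ} (hC : 0 < C) (hb : 0 < b)
    (hV : ∀ s : ℤ, (s = 1 ∨ s = -1) → ∀ (X : ℕ) (Z : ℝ), 1 ≤ X → 1 ≤ Z →
    (cnt s (Late Z) X : ℝ) ≤ C * X / Z ^ b) {N : ℕ} (hN : 1 ≤ N) :
    ∃ F : Finset (Set ℤ), F.card ≤ N ∧ ∀ s : ℤ, (s = 1 ∨ s = -1) →
      dens s (Rest F) ≤ C * 2 ^ b / (N : ℝ) ^ b := by
  classical
  set z : ℕ := (N + 1) / 2 with hz
  have hz1 : 1 ≤ z := by omega
  set g : ℤ → Set ℤ := fun m => if h : ∃ c, IsCycle c ∧ m ∈ Basin c then h.choose else ∅ with hg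
  refine ⟨(Ioo (-(z : ℤ)) z).image g, ?_, ?_⟩
  · refine card_image_le.trans ?_
    rw [Int.card_Ioo]
    omega
  · intro s hs
    have h1 := dens_far hV hs (inv_rest ((Ioo (-(z : ℤ)) z).image g)) (Z := z) (by exact_mod_cast hz1) (by
      rintro n ⟨c, hc, hF, hn⟩
      by_contra hcon
      push Not at hcon
      apply hF
      rw [mem_image]
      refine ⟨n, ?_, ?_⟩
      · have h2 : |n| < (z : ℤ) := by exact_mod_cast hcon
        rw [mem_Ioo]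
        exact abs_lt.1 h2
      · have h3 : ∃ c, IsCycle c ∧ n ∈ Basin c := ⟨c, hc, hn⟩
        simp only [hg, dif_pos h3]
        exact basin_unique h3.choose_spec.1 hc h3.choose_spec.2 hn)
    refine h1.trans ?_
    have hz0 : (0 : ℝ) < z := by exact_mod_cast hz1
    have hN0 : (0 : ℝ) < N := by exact_mod_cast hN
    have h2 : (N : ℝ) ≤ 2 * z := by exact_mod_cast (by omega : N ≤ 2 * z)
    have h3 : (N : ℝ) ^ b ≤ 2 ^ b * (z : ℝ) ^ b := by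
      rw [← Real.mul_rpow (by norm_num) hz0.le]
      exact Real.rpow_le_rpow hN0.le h2 hb.le
    have h4 : (0 : ℝ) < (z : ℝ) ^ b := Real.rpow_pos_of_pos hz0 _
    have h5 : (0 : ℝ) < (N : ℝ) ^ b := Real.rpow_pos_of_pos hN0 _
    rw [div_le_div_iff₀ h4 h5]
    calc C * (N : ℝ) ^ b ≤ C * (2 ^ b * (z : ℝ) ^ b) := mul_le_mul_of_nonneg_left h3 hC.le
      _ = _ := by ring

end Pool.Agent.helper18.VZ
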