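import Pool.Agent.helper18.VZ.Main
import Pool.Agent.helper4.PB.Fin

/-!
# VZ: the pointwise bound of helper4 in the form used here; theorem V for both signs
-/

namespace Pool.Agent.helper18.VZ

open Finset

/-- The signs: `s = 1`, `e = 0` or `s = -1`, `e = 1`. -/
def Sg (s : ℤ) (e : ℕ) : Prop := (s = 1 ∧ e = 0) ∨ (s = -1 ∧ e = 1)

theorem Sg.le {s : ℤ} {e : ℕ} (h : Sg s e) : e ≤ 1 := by
  rcases h with ⟨_, h⟩ | ⟨_, h⟩ <;> omega

theorem T_cast {s : ℤ} {e : ℕ} (h : Sg s e) (n : ℕ) :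
    Pool.Agent.helper4.BAS.T (s * n) = s * (Te e n : ℕ) := by
  unfold Pool.Agent.helper4.BAS.T Te
  rcases h with ⟨rfl, rfl⟩ | ⟨rfl, rfl⟩
  · rcases Nat.mod_two_eq_zero_or_one n with h | h
    · rw [if_pos (by omega), if_neg (by omega)]
      omega
    · rw [if_neg (by omega), if_pos h]
      omega
  · rcases Nat.mod_two_eq_zero_or_one n with h | h
    · rw [if_pos (by omega), if_neg (by omega)]
      omega
    · rw [if_neg (by omega), if_pos h]
      omega

theorem iter_cast {s : ℤ} {e : ℕ} (h : Sg s e) (k n : ℕ) :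
    Pool.Agent.helper4.BAS.T^[k] (s * n) = s * ((Te e)^[k] n : ℕ) := by
  induction k generalizing n with
  | zero => rfl
  | succ k ih => rw [Function.iterate_succ_apply, Function.iterate_succ_apply, T_cast h, ih]

theorem od_cast {s : ℤ} {e : ℕ} (h : Sg s e) (k n : ℕ) :
    Pool.Agent.helper4.PB.odZ k (s * n) = od e k n := by
  induction k generalizing n with
  | zero => rfl
  | succ k ih =>
    show (if (s * (n : ℤ)) % 2 = 0 then 0 else 1) +
      Pool.Agent.helper4.PB.odZ k (Pool.Agent.helper4.BAS.T (s * n)) = n % 2 + od e k (Te e n)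
    rw [T_cast h, ih]
    congr 1
    rcases h with ⟨rfl, rfl⟩ | ⟨rfl, rfl⟩
    · split_ifs <;> omega
    · split_ifs <;> omega

open Classical in
theorem pbst {s : ℤ} {e : ℕ} (h : Sg s e) : PBst e := by
  obtain ⟨C, hC, hpb⟩ := Pool.Agent.helper4.PB.pbZ
  refine ⟨C, hC, ?_⟩
  intro X z i0 Y h1 h2 h3 h4
  have hs : s = 1 ∨ s = -1 := by
    rcases h with ⟨h, _⟩ | ⟨h, _⟩
    · exact Or.inl h
    · exact Or.inr h
  have hss : s * s = 1 := by rcases hs with rfl | rfl <;> norm_num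
  have h5 := hpb s hs X i0 (s * z) Y h1 h2 h3 (by
    rw [← mul_assoc, hss, one_mul]
    exact_mod_cast h4)
  refine (le_trans ?_ h5).trans (le_of_eq (by ring))
  have hsub : (range (X + 1)).filter (fun n => ∃ j, (Te e)^[j] n = z ∧
      (∀ i < j, Y ≤ ((Te e)^[i] n : ℕ)) ∧ (∀ i, i0 ≤ i → i ≤ j →
        49 * i ≤ 100 * od e i ((Te e)^[j - i] n) ∧
        100 * od e i ((Te e)^[j - i] n) ≤ 51 * i)) ⊆
      (range (X + 1)).filter (fun n : ℕ => ∃ j, Pool.Agent.helper4.PB.Hit s i0 Y (s * z) j (s * n)) := by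
    intro n hn
    rw [mem_filter] at hn ⊢
    obtain ⟨hn1, j, hj1, hj2, hj3⟩ := hn
    refine ⟨hn1, j, ?_, ?_, ?_⟩
    · rw [iter_cast h, hj1]
    · intro i hi
      rw [iter_cast h, ← mul_assoc, hss, one_mul]
      exact_mod_cast hj2 i hi
    · intro i hi hij
      rw [iter_cast h, od_cast h]
      exact hj3 i hi hij
  exact_mod_cast card_le_card hsub

open Classical in
/-- **Theorem V**, both signs. -/
theorem V_signed {s : ℤ} {e : ℕ} (h : Sg s e) : ∃ C c : ℝ, 0 < C ∧ 0 < c ∧ ∀ X Z : ℕ, 1 ≤ X → 1 ≤ Z →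
    (((range (X + 1)).filter (fun n => ∀ i ≤ 7 * (Nat.log 2 X + 1), Z ≤ (Te e)^[i] n)).card : ℝ) ≤
      C * X / (Z : ℝ) ^ c :=
  V_main h.le (pbst h)

end Pool.Agent.helper18.VZ
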