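import Pool.Agent.helper18.VZ.Word

/-!
# VZ: the scales between a number and its iterate below `2 ^ K`
-/

namespace Pool.Agent.helper18.VZ

open Finset

theorem od_add (e j i n : ℕ) : od e (j + i) n = od e j n + od e i ((Te e)^[j] n) := by
  induction j generalizing n with
  | zero => simp [od]
  | succ j ih =>
    rw [Nat.succ_add, Function.iterate_succ_apply]
    show n % 2 + od e (j + i) (Te e n) = (n % 2 + od e j (Te e n)) + od e i ((Te e)^[j] (Te e n))
    rw [ih]
    omega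

theorem two_T_le {e : ℕ} (he : e ≤ 1) (n : ℕ) : 2 * Te e n ≤ 3 ^ (n % 2) * n + n % 2 := by
  rcases Nat.mod_two_eq_zero_or_one n with h | h
  · rw [two_T_even h, h, pow_zero]; omega
  · have := two_T_odd he h
    rw [h, pow_one]; omega

theorem le_two_T {e : ℕ} (he : e ≤ 1) (n : ℕ) : n ≤ 2 * Te e n := by
  rcases Nat.mod_two_eq_zero_or_one n with h | h
  · rw [two_T_even h]
  · have := two_T_odd he h
    omega

theorem le_iter {e : ℕ} (he : e ≤ 1) (k n : ℕ) : n ≤ 2 ^ k * (Te e)^[k] n := by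
  induction k generalizing n with
  | zero => simp
  | succ k ih =>
    rw [Function.iterate_succ_apply]
    have h1 := ih (Te e n)
    have h2 := le_two_T he n
    calc n ≤ 2 * Te e n := h2
      _ ≤ 2 * (2 ^ k * (Te e)^[k] (Te e n)) := by omega
      _ = _ := by ring

theorem iter_up {e : ℕ} (he : e ≤ 1) (y : ℝ) (hy : 0 < y) (k : ℕ) :
    ∀ n : ℕ, (∀ i < k, y ≤ ((Te e)^[i] n : ℕ)) →
    (2 : ℝ) ^ k * ((Te e)^[k] n : ℕ) ≤ 3 ^ (od e k n) * (1 + 1 / (3 * y)) ^ k * n := by
  induction k with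
  | zero => intro n _; simp [od]
  | succ k ih =>
    intro n hi
    have h1 := ih (Te e n) (by
      intro i hik
      have := hi (i + 1) (by omega)
      rwa [Function.iterate_succ_apply] at this)
    rw [Function.iterate_succ_apply]
    have hn0 : y ≤ (n : ℝ) := by simpa using hi 0 (by omega)
    have hT' : (2 : ℝ) * (Te e n : ℕ) ≤ 3 ^ (n % 2) * (1 + 1 / (3 * y)) * n := by
      have h2 : (2 : ℝ) * (Te e n : ℕ) ≤ 3 ^ (n % 2) * n + (n % 2 : ℕ) := by
        exact_mod_cast two_T_le he n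
      refine h2.trans ?_
      rcases Nat.mod_two_eq_zero_or_one n with h | h
      · rw [h]
        have : 0 ≤ 1 / (3 * y) * n := by positivity
        push_cast
        nlinarith
      · rw [h, pow_one]
        have h5 : 1 ≤ (n : ℝ) / y := by rwa [le_div_iff₀ hy, one_mul]
        have h6 : 3 * (1 + 1 / (3 * y)) * (n : ℝ) = 3 * n + n / y := by
          field_simp
        rw [h6]
        push_cast
        linarith
    have hA : (0 : ℝ) ≤ 3 ^ (od e k (Te e n)) * (1 + 1 / (3 * y)) ^ k := by positivity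
    show (2 : ℝ) ^ (k + 1) * ((Te e)^[k] (Te e n) : ℕ) ≤
      3 ^ (n % 2 + od e k (Te e n)) * (1 + 1 / (3 * y)) ^ (k + 1) * n
    calc (2 : ℝ) ^ (k + 1) * ((Te e)^[k] (Te e n) : ℕ) = 2 * (2 ^ k * ((Te e)^[k] (Te e n) : ℕ)) := by ring
      _ ≤ 2 * (3 ^ (od e k (Te e n)) * (1 + 1 / (3 * y)) ^ k * (Te e n : ℕ)) := by linarith
      _ = 3 ^ (od e k (Te e n)) * (1 + 1 / (3 * y)) ^ k * (2 * (Te e n : ℕ)) := by ring
      _ ≤ 3 ^ (od e k (Te e n)) * (1 + 1 / (3 * y)) ^ k *
          (3 ^ (n % 2) * (1 + 1 / (3 * y)) * n) := mul_le_mul_of_nonneg_left hT' hA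
      _ = _ := by rw [pow_add, pow_succ (1 + 1 / (3 * y)) k]; ring

/-- `j` is the first time below `2 ^ K`. -/
def Hit (e K n j : ℕ) : Prop := (Te e)^[j] n < 2 ^ K ∧ ∀ i < j, 2 ^ K ≤ (Te e)^[i] n

/-- Every scale above `K`, up to `K'`, is hit in a typical integer. -/
def Good (e : ℕ) (ε : ℝ) (K K' n : ℕ) : Prop :=
  ∀ κ, K < κ → κ ≤ K' → ∀ j, Hit e κ n j → Typ e ε κ ((Te e)^[j] n)

theorem hit_of_lt {e K n i : ℕ} (h : (Te e)^[i] n < 2 ^ K) : ∃ j ≤ i, Hit e K n j := by
  classical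
  have hex : ∃ i, (Te e)^[i] n < 2 ^ K := ⟨i, h⟩
  refine ⟨Nat.find hex, Nat.find_min' hex h, Nat.find_spec hex, fun l hl => ?_⟩
  exact not_lt.1 (Nat.find_min hex hl)

theorem hit_unique {e K n i j : ℕ} (hi : Hit e K n i) (hj : Hit e K n j) : i = j := by
  rcases lt_trichotomy i j with h | h | h
  · have := hj.2 i h
    have := hi.1
    omega
  · exact h
  · have := hi.2 j h
    have := hj.1
    omega

theorem hit_add {e K κ n i j : ℕ} (hK : K ≤ κ) (hi : Hit e κ n i) (hj : Hit e K ((Te e)^[i] n) j) :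
    Hit e K n (i + j) := by
  have hp : 2 ^ K ≤ 2 ^ κ := Nat.pow_le_pow_right (by norm_num) hK
  refine ⟨?_, ?_⟩
  · rw [Nat.add_comm, Function.iterate_add_apply]
    exact hj.1
  · intro l hl
    rcases Nat.lt_or_ge l i with h | h
    · exact hp.trans (hi.2 l h)
    · obtain ⟨m, rfl⟩ := Nat.exists_eq_add_of_le h
      rw [Nat.add_comm i m, Function.iterate_add_apply]
      exact hj.2 m (by omega)

theorem hit_sub {e K n i j : ℕ} (hij : i ≤ j) (hj : Hit e K n j) :
    Hit e K ((Te e)^[i] n) (j - i) := by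
  obtain ⟨m, rfl⟩ := Nat.exists_eq_add_of_le hij
  rw [Nat.add_sub_cancel_left]
  refine ⟨?_, ?_⟩
  · rw [← Function.iterate_add_apply, Nat.add_comm]
    exact hj.1
  · intro l hl
    rw [← Function.iterate_add_apply]
    exact hj.2 (l + i) (by omega)

theorem good_of_hit {e K κ K' n i : ℕ} {ε : ℝ} (hκ : κ ≤ K') (hi : Hit e κ n i)
    (h : Good e ε K K' n) : Good e ε K κ ((Te e)^[i] n) := by
  intro κ' h1 h2 j hj
  have h3 := h κ' h1 (h2.trans hκ) (i + j) (hit_add h2 hi hj)
  rwa [Nat.add_comm, Function.iterate_add_apply] at h3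

/-- One scale step: from a typical integer of scale `K'` the scale `K ≥ ⌊6 K' / 7⌋` is hit within `K'` steps. -/
theorem stage {e : ℕ} (he : e ≤ 1) {ε : ℝ} (hε0 : 0 < ε) (hε : ε ≤ 1 / 1600) {K K' y : ℕ} (hK' : 64 ≤ K')
    (hK : 6 * K' ≤ 7 * K + 6) (hy : y < 2 ^ K') (hT : Typ e ε K' y) :
    ∃ i ≤ K', Hit e K y i := by
  by_cases hex : ∃ i ≤ K', (Te e)^[i] y < 2 ^ K
  · obtain ⟨i, hi, h⟩ := hex
    obtain ⟨j, hj, h2⟩ := hit_of_lt h
    exact ⟨j, hj.trans hi, h2⟩
  · exfalso
    push Not at hex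
    have hY0 : (0 : ℝ) < 2 ^ K := by positivity
    have h2 := iter_up he (2 ^ K : ℝ) hY0 K' y (fun i hi => by exact_mod_cast hex i hi.le)
    have hKY : (K' : ℝ) ≤ 2 ^ K := by
      have h3 : K' ≤ 2 * K := by omega
      have h4 : ∀ K : ℕ, 3 ≤ K → 2 * K ≤ 2 ^ K := by
        intro K hK
        induction K, hK using Nat.le_induction with
        | base => norm_num
        | succ m hm ih => rw [pow_succ]; omega
      exact_mod_cast h3.trans (h4 K (by omega))
    have h3 : (1 + 1 / (3 * (2 : ℝ) ^ K)) ^ K' ≤ 2 := by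
      have e1 : 1 + 1 / (3 * (2 : ℝ) ^ K) ≤ Real.exp (1 / (3 * 2 ^ K)) := by
        have := Real.add_one_le_exp (1 / (3 * (2 : ℝ) ^ K))
        linarith
      calc (1 + 1 / (3 * (2 : ℝ) ^ K)) ^ K' ≤ Real.exp (1 / (3 * 2 ^ K)) ^ K' :=
            pow_le_pow_left₀ (by positivity) e1 K'
        _ = Real.exp (K' * (1 / (3 * 2 ^ K))) := by rw [← Real.exp_nat_mul]
        _ ≤ Real.exp (1 / 3) := by
            apply Real.exp_le_exp.2
            rw [mul_one_div, div_le_div_iff₀ (by positivity) (by norm_num)]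
            nlinarith
        _ ≤ 2 := by
            have h4 : Real.exp (1 / 3) ≤ Real.exp (Real.log 2) := by
              apply Real.exp_le_exp.2
              have := Real.log_two_gt_d9
              linarith
            rwa [Real.exp_log (by norm_num)] at h4
    -- the number of odd terms
    have h4 := hT K' le_rfl
    rw [abs_le] at h4
    have h5 : (od e K' y : ℝ) ≤ (801 / 1600) * K' := by
      have : ε * K' ≤ 1 / 1600 * K' := mul_le_mul_of_nonneg_right hε (Nat.cast_nonneg _)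
      linarith [h4.2]
    have h6 : 1600 * od e K' y ≤ 801 * K' := by
      have : (1600 : ℝ) * od e K' y ≤ 801 * K' := by linarith
      exact_mod_cast this
    -- 3 ^ od ≤ 2 ^ (K - 1)
    have h7 : 3 ^ (od e K' y) ≤ 2 ^ (K - 1) := by
      have h8 : (3 ^ (od e K' y)) ^ 5 ≤ (2 ^ (K - 1)) ^ 5 := by
        calc (3 ^ (od e K' y)) ^ 5 = (3 ^ 5) ^ (od e K' y) := by
              rw [← pow_mul, ← pow_mul, Nat.mul_comm]
          _ ≤ (2 ^ 8) ^ (od e K' y) := Nat.pow_le_pow_left (by norm_num) _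
          _ = 2 ^ (8 * od e K' y) := by rw [pow_mul]
          _ ≤ 2 ^ ((K - 1) * 5) := Nat.pow_le_pow_right (by norm_num) (by omega)
          _ = (2 ^ (K - 1)) ^ 5 := by rw [pow_mul]
      exact (Nat.pow_le_pow_iff_left (by norm_num)).1 h8
    have h9 := hex K' le_rfl
    have h10 : (2 : ℝ) ^ K' * ((Te e)^[K'] y : ℕ) < 2 ^ K' * 2 ^ K := by
      refine lt_of_le_of_lt h2 ?_
      have h7' : (3 : ℝ) ^ (od e K' y) ≤ 2 ^ (K - 1) := by exact_mod_cast h7
      have hy' : (y : ℝ) < 2 ^ K' := by exact_mod_cast hy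
      have e2 : (2 : ℝ) ^ K = 2 ^ (K - 1) * 2 := by
        rw [← pow_succ]
        congr 1
        omega
      calc 3 ^ (od e K' y) * (1 + 1 / (3 * (2 : ℝ) ^ K)) ^ K' * (y : ℝ)
          < 3 ^ (od e K' y) * (1 + 1 / (3 * (2 : ℝ) ^ K)) ^ K' * 2 ^ K' :=
            mul_lt_mul_of_pos_left hy' (by positivity)
        _ ≤ (2 ^ (K - 1) * 2) * 2 ^ K' := by
            apply mul_le_mul_of_nonneg_right _ (by positivity)
            exact mul_le_mul h7' h3 (by positivity) (by positivity)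
        _ = 2 ^ K' * 2 ^ K := by rw [e2]; ring
    have h11 : (((Te e)^[K'] y : ℕ) : ℝ) < 2 ^ K := lt_of_mul_lt_mul_left h10 (by positivity)
    have h12 : (Te e)^[K'] y < 2 ^ K := by exact_mod_cast h11
    omega

/-- From scale `K'` to scale `K`: at most `7 K'` steps, half of them odd up to `7 ε K'`. -/
theorem passage {e : ℕ} (he : e ≤ 1) {ε : ℝ} (hε0 : 0 < ε) (hε : ε ≤ 1 / 1600) {K : ℕ} (hK : 63 ≤ K) :
    ∀ K' y : ℕ, K ≤ K' → y < 2 ^ K' → Good e ε K K' y →
      ∃ i, Hit e K y i ∧ i ≤ 7 * K' ∧ |(od e i y : ℝ) - i / 2| ≤ 7 * ε * K' := by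
  intro K'
  induction K' using Nat.strong_induction_on with
  | _ K' ih =>
    intro y hKK hy hG
    rcases Nat.eq_or_lt_of_le hKK with h | h
    · subst h
      refine ⟨0, ⟨hy, fun i hi => absurd hi (by omega)⟩, by omega, ?_⟩
      simp only [od, CharP.cast_eq_zero, zero_div, sub_zero, abs_zero]
      positivity
    · have hT : Typ e ε K' y := by
        have := hG K' h le_rfl 0 ⟨by simpa using hy, fun i hi => absurd hi (by omega)⟩
        simpa using this
      set K'' := max K (6 * K' / 7) with hK''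
      have h1 : K ≤ K'' := le_max_left _ _
      have h2 : K'' < K' := by
        rw [hK'', max_lt_iff]
        omega
      obtain ⟨i1, hi1, hit1⟩ := stage he hε0 hε (K := K'') (K' := K') (y := y) (by omega) (by
        have := le_max_right K (6 * K' / 7)
        omega) hy hT
      have hd1 := hT i1 hi1
      rcases Nat.eq_or_lt_of_le h1 with h3 | h3
      · rw [← h3] at hit1
        refine ⟨i1, hit1, by omega, hd1.trans ?_⟩
        have : 0 ≤ ε * K' := by positivity
        linarith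
      · have h4 : 7 * K'' ≤ 6 * K' := by
          have : K'' = 6 * K' / 7 := by omega
          omega
        obtain ⟨i2, hit2, hi2, hd2⟩ := ih K'' h2 ((Te e)^[i1] y) h1 hit1.1
          (good_of_hit h2.le hit1 hG)
        refine ⟨i1 + i2, hit_add h1 hit1 hit2, by omega, ?_⟩
        rw [od_add]
        have h5 : ((od e i1 y + od e i2 ((Te e)^[i1] y) : ℕ) : ℝ) - ((i1 + i2 : ℕ) : ℝ) / 2 =
            ((od e i1 y : ℝ) - i1 / 2) + ((od e i2 ((Te e)^[i1] y) : ℝ) - i2 / 2) := by
          push_cast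
          ring
        rw [h5]
        refine (abs_add_le _ _).trans ?_
        have h6 : (7 : ℝ) * K'' ≤ 6 * K' := by exact_mod_cast h4
        have h7 : ε * (7 * K'') ≤ ε * (6 * K') := mul_le_mul_of_nonneg_left h6 hε0.le
        linarith

/-- The last `i ≥ K` steps before the first time below `2 ^ K` are typical. -/
theorem suffix {e : ℕ} (he : e ≤ 1) {ε : ℝ} (hε0 : 0 < ε) (hε : ε ≤ 1 / 1600) {K : ℕ} (hK : 63 ≤ K)
    {K' n j : ℕ} (hn : n < 2 ^ K') (hG : Good e ε K K' n) (hj : Hit e K n j) {i : ℕ} (hi : K ≤ i)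
    (hij : i ≤ j) :
    49 * i ≤ 100 * od e i ((Te e)^[j - i] n) ∧ 100 * od e i ((Te e)^[j - i] n) ≤ 51 * i := by
  classical
  set t := j - i with ht
  have hex : ∃ κ, ∃ a ≤ t, (Te e)^[a] n < 2 ^ κ := ⟨K', 0, Nat.zero_le _, by simpa using hn⟩
  set κ := Nat.find hex with hκ
  have hspec : ∃ a ≤ t, (Te e)^[a] n < 2 ^ κ := Nat.find_spec hex
  have hκK' : κ ≤ K' := Nat.find_min' hex ⟨0, Nat.zero_le _, by simpa using hn⟩
  obtain ⟨a0, ha0, h0⟩ := hspec
  obtain ⟨a, haa0, hita⟩ := hit_of_lt h0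
  have hat : a ≤ t := haa0.trans ha0
  have hκK : K < κ := by
    by_contra hcon
    push Not at hcon
    have h1 : (Te e)^[a] n < 2 ^ K :=
      lt_of_lt_of_le hita.1 (Nat.pow_le_pow_right (by norm_num) hcon)
    have h2 := hj.2 a (by omega)
    omega
  have hmin : ∀ b ≤ t, 2 ^ (κ - 1) ≤ (Te e)^[b] n := by
    intro b hb
    by_contra hcon
    push Not at hcon
    have := Nat.find_min hex (m := κ - 1) (by omega)
    exact this ⟨b, hb, hcon⟩
  set y := (Te e)^[a] n with hy
  have hGy : Good e ε K κ y := good_of_hit hκK' hita hG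
  have hTy : Typ e ε κ y := by
    have := hGy κ hκK le_rfl 0 ⟨by simpa using hita.1, fun i hi => absurd hi (by omega)⟩
    simpa using this
  -- the next scale is hit after time t
  obtain ⟨b, hb, hitb⟩ := stage he hε0 hε (K := κ - 1) (K' := κ) (y := y) (by omega) (by omega) hita.1 hTy
  have hta : t < a + b := by
    by_contra hcon
    push Not at hcon
    have h1 := hmin (b + a) (by omega)
    have h2 := hitb.1
    rw [hy, ← Function.iterate_add_apply] at h2
    omega
  have hd1 := hTy (t - a) (by omega)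
  -- the whole path from y
  obtain ⟨c, hitc, hc, hdc⟩ := passage he hε0 hε hK κ y hκK.le hita.1 hGy
  have hcj : c = j - a := hit_unique hitc (hit_sub (e := e) (K := K) (n := n) (i := a) (j := j) (by omega) hj)
  subst hcj
  have hsplit : j - a = (t - a) + i := by omega
  have hod : od e (j - a) y = od e (t - a) y + od e i ((Te e)^[t] n) := by
    rw [hsplit, od_add, hy, ← Function.iterate_add_apply]
    congr 3
    omega
  -- the size of κ
  have hκi : κ ≤ 2 * i := by
    have h1 := hmin t le_rfl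
    have h2 := le_iter he i ((Te e)^[t] n)
    rw [← Function.iterate_add_apply] at h2
    have h3 : (Te e)^[i + t] n < 2 ^ K := by
      have := hj.1
      rwa [show i + t = j by omega]
    have h4 : 2 ^ (κ - 1) < 2 ^ (i + K) := by
      rw [pow_add]
      calc 2 ^ (κ - 1) ≤ 2 ^ i * (Te e)^[i + t] n := h1.trans h2
        _ < 2 ^ i * 2 ^ K := Nat.mul_lt_mul_of_pos_left h3 (by positivity)
    have h5 := (Nat.pow_lt_pow_iff_right (by norm_num : 1 < 2)).1 h4
    omega
  have hκi' : (κ : ℝ) ≤ 2 * i := by exact_mod_cast hκi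
  rw [hod, hsplit] at hdc
  push_cast at hdc hd1
  rw [abs_le] at hdc hd1
  have h8 : ε * κ ≤ 1 / 1600 * (2 * i) :=
    mul_le_mul hε hκi' (Nat.cast_nonneg _) (by norm_num)
  have hlo : (49 : ℝ) * i ≤ 100 * od e i ((Te e)^[t] n) := by linarith [hdc.1, hd1.2]
  have hhi : (100 : ℝ) * od e i ((Te e)^[t] n) ≤ 51 * i := by linarith [hdc.2, hd1.1]
  constructor
  · exact_mod_cast hlo
  · exact_mod_cast hhi

end Pool.Agent.helper18.VZ
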