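import Pool.Agent.helper18.VZ.Glue

/-!
# VZ: all but few integers have an iterate below `Z`, from the pointwise bound
-/

namespace Pool.Agent.helper18.VZ

open Finset

open Classical in
/-- The pointwise bound of helper4 (PB). -/
def PBst (e : ℕ) : Prop := ∃ C : ℝ, 0 < C ∧ ∀ (X z i0 : ℕ) (Y : ℝ), 1 ≤ i0 → 1 ≤ Y → Y ≤ X + 1 →
  (z : ℝ) ≤ Y → (((range (X + 1)).filter (fun n => ∃ j, (Te e)^[j] n = z ∧
    (∀ i < j, Y ≤ ((Te e)^[i] n : ℕ)) ∧ (∀ i, i0 ≤ i → i ≤ j →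
      49 * i ≤ 100 * od e i ((Te e)^[j - i] n) ∧
      100 * od e i ((Te e)^[j - i] n) ≤ 51 * i))).card : ℝ) ≤ C * i0 ^ 2 * (X + 1) / Y

open Classical in
theorem scale_card {e : ℕ} (he : e ≤ 1) {ε : ℝ} (hε0 : 0 < ε) (hε : ε ≤ 1 / 1600) {C : ℝ} (hC : 0 < C)
    (hPB : ∀ (X z i0 : ℕ) (Y : ℝ), 1 ≤ i0 → 1 ≤ Y → Y ≤ X + 1 →
      (z : ℝ) ≤ Y → (((range (X + 1)).filter (fun n => ∃ j, (Te e)^[j] n = z ∧
        (∀ i < j, Y ≤ ((Te e)^[i] n : ℕ)) ∧ (∀ i, i0 ≤ i → i ≤ j →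
          49 * i ≤ 100 * od e i ((Te e)^[j - i] n) ∧
          100 * od e i ((Te e)^[j - i] n) ≤ 51 * i))).card : ℝ) ≤ C * i0 ^ 2 * (X + 1) / Y)
    {K L : ℕ} (hK : 63 ≤ K) (hKL : K ≤ L) :
    (((range (2 ^ L)).filter (fun n => Good e ε K L n ∧
      ∃ j, Hit e K n j ∧ ¬ Typ e ε K ((Te e)^[j] n))).card : ℝ) ≤
      4 * C * K ^ 3 * Real.exp (-(2 * ε ^ 2 * K)) * 2 ^ L := by
  set Bd := (range (2 ^ K)).filter (fun y => ¬ Typ e ε K y) with hBd
  set F : ℕ → Finset ℕ := fun z => (range (2 ^ L)).filter (fun n => ∃ j, (Te e)^[j] n = z ∧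
        (∀ i < j, (2 : ℝ) ^ K ≤ ((Te e)^[i] n : ℕ)) ∧ (∀ i, K ≤ i → i ≤ j →
          49 * i ≤ 100 * od e i ((Te e)^[j - i] n) ∧
          100 * od e i ((Te e)^[j - i] n) ≤ 51 * i)) with hF
  have hsub : (range (2 ^ L)).filter (fun n => Good e ε K L n ∧
      ∃ j, Hit e K n j ∧ ¬ Typ e ε K ((Te e)^[j] n)) ⊆ Bd.biUnion F := by
    intro n hn
    rw [mem_filter] at hn
    obtain ⟨hn1, hG, j, hj, hT⟩ := hn
    rw [mem_biUnion]
    refine ⟨(Te e)^[j] n, ?_, ?_⟩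
    · rw [hBd, mem_filter, mem_range]
      exact ⟨hj.1, hT⟩
    · simp only [hF, mem_filter]
      refine ⟨hn1, j, rfl, ?_, ?_⟩
      · intro i hi
        exact_mod_cast hj.2 i hi
      · intro i hi hij
        exact suffix he hε0 hε hK (mem_range.1 hn1) hG hj hi hij
  have h1 : (((range (2 ^ L)).filter (fun n => Good e ε K L n ∧
      ∃ j, Hit e K n j ∧ ¬ Typ e ε K ((Te e)^[j] n))).card : ℝ) ≤ ∑ z ∈ Bd, ((F z).card : ℝ) := by
    exact_mod_cast (card_le_card hsub).trans card_biUnion_le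
  have h2 : ∀ z ∈ Bd, ((F z).card : ℝ) ≤ C * K ^ 2 * 2 ^ L / 2 ^ K := by
    intro z hz
    rw [hBd, mem_filter, mem_range] at hz
    have h3 := hPB (2 ^ L - 1) z K (2 ^ K) (by omega) (one_le_pow₀ (by norm_num)) (by
      have h4 : 2 ^ K ≤ (2 ^ L - 1) + 1 := by
        have := Nat.pow_le_pow_right (show 0 < 2 by norm_num) hKL
        omega
      exact_mod_cast h4) (by exact_mod_cast hz.1.le)
    have h5 : 2 ^ L - 1 + 1 = 2 ^ L := Nat.sub_add_cancel Nat.one_le_two_pow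
    have h6 : ((2 ^ L - 1 : ℕ) : ℝ) + 1 = 2 ^ L := by exact_mod_cast h5
    rw [h5, h6] at h3
    exact h3
  have h3 := h1.trans (sum_le_card_nsmul _ _ _ h2)
  rw [nsmul_eq_mul] at h3
  have h4 := card_bad he hε0 K
  have h5 : (K : ℝ) + 1 ≤ 2 * K := by
    have : (1 : ℝ) ≤ K := by exact_mod_cast (by omega : 1 ≤ K)
    linarith
  calc _ ≤ ((Bd.card : ℕ) : ℝ) * (C * K ^ 2 * 2 ^ L / 2 ^ K) := h3
    _ ≤ (2 * (K + 1) * 2 ^ K * Real.exp (-(2 * ε ^ 2 * K))) * (C * K ^ 2 * 2 ^ L / 2 ^ K) :=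
        mul_le_mul_of_nonneg_right h4 (by positivity)
    _ = (K + 1) * (2 * C * K ^ 2 * Real.exp (-(2 * ε ^ 2 * K)) * 2 ^ L) := by
        field_simp
    _ ≤ (2 * K) * (2 * C * K ^ 2 * Real.exp (-(2 * ε ^ 2 * K)) * 2 ^ L) :=
        mul_le_mul_of_nonneg_right h5 (by positivity)
    _ = _ := by ring

theorem not_good {e : ℕ} {ε : ℝ} {K L n : ℕ} (h : ¬ Good e ε K L n) :
    ∃ κ, K < κ ∧ κ ≤ L ∧ Good e ε κ L n ∧ ∃ j, Hit e κ n j ∧ ¬ Typ e ε κ ((Te e)^[j] n) := by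
  classical
  unfold Good at h
  push Not at h
  obtain ⟨κ0, h1, h2, j0, h3, h4⟩ := h
  set P : ℕ → Prop := fun κ => K < κ ∧ κ ≤ L ∧ ∃ j, Hit e κ n j ∧ ¬ Typ e ε κ ((Te e)^[j] n) with hP
  have hP0 : P κ0 := ⟨h1, h2, j0, h3, h4⟩
  have hm := Nat.findGreatest_spec (P := P) h2 hP0
  set κ := Nat.findGreatest P L with hκ
  refine ⟨κ, hm.1, hm.2.1, ?_, hm.2.2⟩
  intro κ' h5 h6 j hj
  by_contra hcon
  exact Nat.findGreatest_is_greatest h5 h6 ⟨hm.1.trans h5, h6, j, hj, hcon⟩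

open Classical in
theorem V_pow {e : ℕ} (he : e ≤ 1) (hPB : PBst e) : ∃ C c : ℝ, 0 < C ∧ 0 < c ∧ ∀ L K : ℕ,
    (((range (2 ^ L)).filter (fun n => ∀ i ≤ 7 * L, 2 ^ K ≤ (Te e)^[i] n)).card : ℝ) ≤
      C * 2 ^ L * Real.exp (-(c * K)) := by
  obtain ⟨C, hC, hPB⟩ := hPB
  set ε : ℝ := 1 / 1600 with hε
  have hε0 : 0 < ε := by norm_num [hε]
  have hsum : Summable (fun n : ℕ => (n : ℝ) ^ 3 * Real.exp (-(ε ^ 2) * n)) :=
    Real.summable_pow_mul_exp_neg_nat_mul 3 (by positivity)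
  set S : ℝ := ∑' n : ℕ, (n : ℝ) ^ 3 * Real.exp (-(ε ^ 2) * n) with hS
  have hS0 : 0 ≤ S := tsum_nonneg fun n => by positivity
  refine ⟨4 * C * S + Real.exp (ε ^ 2 * 63), ε ^ 2, by positivity, by positivity, ?_⟩
  intro L K
  have hcard0 : (((range (2 ^ L)).filter (fun n => ∀ i ≤ 7 * L, 2 ^ K ≤ (Te e)^[i] n)).card : ℝ) ≤ 2 ^ L := by
    have := card_filter_le (range (2 ^ L)) (fun n => ∀ i ≤ 7 * L, 2 ^ K ≤ (Te e)^[i] n)
    rw [card_range] at this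
    exact_mod_cast this
  rcases Nat.lt_or_ge K 63 with hK | hK
  · refine hcard0.trans ?_
    have h1 : (1 : ℝ) ≤ Real.exp (ε ^ 2 * 63) * Real.exp (-(ε ^ 2 * K)) := by
      rw [← Real.exp_add]
      apply Real.one_le_exp
      have : (K : ℝ) ≤ 63 := by exact_mod_cast hK.le
      nlinarith [sq_nonneg ε]
    have h2 : (0 : ℝ) ≤ 4 * C * S * Real.exp (-(ε ^ 2 * K)) := by positivity
    have h3 : (0 : ℝ) < 2 ^ L := by positivity
    calc (2 : ℝ) ^ L = 2 ^ L * 1 := by ring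
      _ ≤ 2 ^ L * ((4 * C * S + Real.exp (ε ^ 2 * 63)) * Real.exp (-(ε ^ 2 * K))) := by
          apply mul_le_mul_of_nonneg_left _ h3.le
          linarith
      _ = _ := by ring
  · set E : ℕ → Finset ℕ := fun κ => (range (2 ^ L)).filter (fun n => Good e ε κ L n ∧
      ∃ j, Hit e κ n j ∧ ¬ Typ e ε κ ((Te e)^[j] n)) with hE
    have hsub : (range (2 ^ L)).filter (fun n => ∀ i ≤ 7 * L, 2 ^ K ≤ (Te e)^[i] n) ⊆
        (Ioc K L).biUnion E := by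
      intro n hn
      rw [mem_filter, mem_range] at hn
      obtain ⟨hn1, hn2⟩ := hn
      have hKL : K < L := by
        by_contra hcon
        push Not at hcon
        have h1 := hn2 0 (Nat.zero_le _)
        have h2 : 2 ^ L ≤ 2 ^ K := Nat.pow_le_pow_right (by norm_num) hcon
        rw [Function.iterate_zero, id] at h1
        omega
      have hG : ¬ Good e ε K L n := by
        intro hG
        obtain ⟨i, hi, h1, _⟩ := passage he hε0 le_rfl hK L n hKL.le hn1 hG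
        have h2 := hi.1
        have h3 := hn2 i h1
        omega
      obtain ⟨κ, h1, h2, h3, h4⟩ := not_good hG
      rw [mem_biUnion]
      refine ⟨κ, mem_Ioc.2 ⟨h1, h2⟩, ?_⟩
      simp only [hE, mem_filter, mem_range]
      exact ⟨hn1, h3, h4⟩
    have h1 : (((range (2 ^ L)).filter (fun n => ∀ i ≤ 7 * L, 2 ^ K ≤ (Te e)^[i] n)).card : ℝ) ≤
        ∑ κ ∈ Ioc K L, ((E κ).card : ℝ) := by
      exact_mod_cast (card_le_card hsub).trans card_biUnion_le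
    have h2 : ∀ κ ∈ Ioc K L, ((E κ).card : ℝ) ≤
        4 * C * 2 ^ L * Real.exp (-(ε ^ 2 * K)) * ((κ : ℝ) ^ 3 * Real.exp (-(ε ^ 2) * κ)) := by
      intro κ hκ
      rw [mem_Ioc] at hκ
      refine (scale_card he hε0 le_rfl hC hPB (K := κ) (L := L) (by omega) hκ.2).trans ?_
      have h3 : Real.exp (-(2 * ε ^ 2 * κ)) ≤ Real.exp (-(ε ^ 2 * K)) * Real.exp (-(ε ^ 2) * κ) := by
        rw [← Real.exp_add]
        apply Real.exp_le_exp.2
        have : (K : ℝ) ≤ κ := by exact_mod_cast hκ.1.le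
        nlinarith [sq_nonneg ε]
      calc 4 * C * (κ : ℝ) ^ 3 * Real.exp (-(2 * ε ^ 2 * κ)) * 2 ^ L
          = (4 * C * (κ : ℝ) ^ 3 * 2 ^ L) * Real.exp (-(2 * ε ^ 2 * κ)) := by ring
        _ ≤ (4 * C * (κ : ℝ) ^ 3 * 2 ^ L) * (Real.exp (-(ε ^ 2 * K)) * Real.exp (-(ε ^ 2) * κ)) :=
            mul_le_mul_of_nonneg_left h3 (by positivity)
        _ = _ := by ring
    have h3 := h1.trans (sum_le_sum h2)
    rw [← mul_sum] at h3
    have h4 : ∑ κ ∈ Ioc K L, ((κ : ℝ) ^ 3 * Real.exp (-(ε ^ 2) * κ)) ≤ S :=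
      hsum.sum_le_tsum _ fun n _ => by positivity
    refine h3.trans ?_
    calc 4 * C * 2 ^ L * Real.exp (-(ε ^ 2 * K)) * ∑ κ ∈ Ioc K L, ((κ : ℝ) ^ 3 * Real.exp (-(ε ^ 2) * κ))
        ≤ 4 * C * 2 ^ L * Real.exp (-(ε ^ 2 * K)) * S :=
          mul_le_mul_of_nonneg_left h4 (by positivity)
      _ = (4 * C * S) * (2 ^ L * Real.exp (-(ε ^ 2 * K))) := by ring
      _ ≤ (4 * C * S + Real.exp (ε ^ 2 * 63)) * (2 ^ L * Real.exp (-(ε ^ 2 * K))) := by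
          apply mul_le_mul_of_nonneg_right _ (by positivity)
          linarith [Real.exp_pos (ε ^ 2 * 63)]
      _ = _ := by ring

open Classical in
/-- **Theorem V**, from the pointwise bound. -/
theorem V_main {e : ℕ} (he : e ≤ 1) (hPB : PBst e) : ∃ C c : ℝ, 0 < C ∧ 0 < c ∧ ∀ X Z : ℕ, 1 ≤ X → 1 ≤ Z →
    (((range (X + 1)).filter (fun n => ∀ i ≤ 7 * (Nat.log 2 X + 1), Z ≤ (Te e)^[i] n)).card : ℝ) ≤
      C * X / (Z : ℝ) ^ c := by
  obtain ⟨C, c, hC, hc, h⟩ := V_pow he hPB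
  have hl : 0 < Real.log 2 := Real.log_pos (by norm_num)
  refine ⟨2 * C * Real.exp c, c / Real.log 2, by positivity, by positivity, ?_⟩
  intro X Z hX hZ
  set L := Nat.log 2 X + 1 with hL
  set K := Nat.log 2 Z with hK
  have h1 := h L K
  have hXL : X < 2 ^ L := Nat.lt_pow_succ_log_self (by norm_num) X
  have hLX : 2 ^ L ≤ 2 * X := by
    rw [hL, pow_succ]
    have := Nat.pow_log_le_self 2 (show X ≠ 0 by omega)
    omega
  have hKZ : 2 ^ K ≤ Z := Nat.pow_log_le_self 2 (by omega)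
  have hZK : Z < 2 ^ (K + 1) := Nat.lt_pow_succ_log_self (by norm_num) Z
  have hsub : (range (X + 1)).filter (fun n => ∀ i ≤ 7 * L, Z ≤ (Te e)^[i] n) ⊆
      (range (2 ^ L)).filter (fun n => ∀ i ≤ 7 * L, 2 ^ K ≤ (Te e)^[i] n) := by
    intro n hn
    rw [mem_filter, mem_range] at hn ⊢
    exact ⟨by omega, fun i hi => hKZ.trans (hn.2 i hi)⟩
  have h2 : (((range (X + 1)).filter (fun n => ∀ i ≤ 7 * L, Z ≤ (Te e)^[i] n)).card : ℝ) ≤
      ((range (2 ^ L)).filter (fun n => ∀ i ≤ 7 * L, 2 ^ K ≤ (Te e)^[i] n)).card := by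
    exact_mod_cast card_le_card hsub
  refine (h2.trans h1).trans ?_
  have hZ0 : (0 : ℝ) < Z := by exact_mod_cast hZ
  have hZc : (0 : ℝ) < (Z : ℝ) ^ (c / Real.log 2) := Real.rpow_pos_of_pos hZ0 _
  rw [le_div_iff₀ hZc]
  have h3 : (Z : ℝ) ^ (c / Real.log 2) ≤ Real.exp (c * (K + 1)) := by
    have h4 : (Z : ℝ) ≤ 2 ^ (K + 1) := by exact_mod_cast hZK.le
    calc (Z : ℝ) ^ (c / Real.log 2) ≤ ((2 : ℝ) ^ (K + 1)) ^ (c / Real.log 2) :=
          Real.rpow_le_rpow hZ0.le h4 (by positivity)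
      _ = Real.exp (c * (K + 1)) := by
          rw [Real.rpow_def_of_pos (by positivity), Real.log_pow]
          congr 1
          push_cast
          field_simp
  have h5 : (2 : ℝ) ^ L ≤ 2 * X := by exact_mod_cast hLX
  calc C * 2 ^ L * Real.exp (-(c * K)) * (Z : ℝ) ^ (c / Real.log 2)
      ≤ C * (2 * X) * Real.exp (-(c * K)) * Real.exp (c * (K + 1)) := by
        apply mul_le_mul _ h3 hZc.le (by positivity)
        apply mul_le_mul_of_nonneg_right _ (Real.exp_pos _).le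
        exact mul_le_mul_of_nonneg_left h5 hC.le
    _ = 2 * C * Real.exp c * X := by
        rw [mul_assoc (C * (2 * X)), ← Real.exp_add, show -(c * (K : ℝ)) + c * (K + 1) = c by ring]
        ring

end Pool.Agent.helper18.VZ
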