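import Pool.Agent.helper18.VZ.Cor

/-!
# VZ: the limit law of the least absolute value in the trajectory
-/

namespace Pool.Agent.helper18.VZ

open Finset Filter Topology Pool.Agent.helper4.BAS Pool.Agent.helper18.BAS

/-- The integers whose trajectory has the least absolute value `m`. -/
def Mn (m : ℕ) : Set ℤ := {n : ℤ | (∃ k : ℕ, |T^[k] n| = m) ∧ ∀ k : ℕ, (m : ℤ) ≤ |T^[k] n|}

/-- The integers whose trajectory stays outside `(-z, z)`. -/
def Wz (z : ℕ) : Set ℤ := {n : ℤ | ∀ k : ℕ, (z : ℤ) ≤ |T^[k] n|}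

theorem ainv_W (z : ℕ) : AInv (Wz z) := by
  refine ⟨z, fun n hn => ?_⟩
  constructor
  · intro h k
    cases k with
    | zero => exact hn
    | succ k => rw [Function.iterate_succ_apply]; exact h k
  · intro h k
    have := h (k + 1)
    rwa [Function.iterate_succ_apply] at this

theorem ainv_M (m : ℕ) : AInv (Mn m) := by
  refine ⟨m + 1, fun n hn => ?_⟩
  push_cast at hn
  constructor
  · rintro ⟨⟨k, hk⟩, h⟩
    refine ⟨⟨k + 1, by rwa [Function.iterate_succ_apply]⟩, fun k => ?_⟩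
    cases k with
    | zero => simp only [Function.iterate_zero, id]; linarith
    | succ k => rw [Function.iterate_succ_apply]; exact h k
  · rintro ⟨⟨k, hk⟩, h⟩
    refine ⟨?_, fun k => ?_⟩
    · cases k with
      | zero => simp only [Function.iterate_zero, id] at hk; linarith
      | succ k => exact ⟨k, by rwa [Function.iterate_succ_apply] at hk⟩
    · have := h (k + 1)
      rwa [Function.iterate_succ_apply] at this

theorem W_succ (z : ℕ) : Wz z = Wz (z + 1) ∪ Mn z := by
  ext n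
  constructor
  · intro h
    by_cases hex : ∃ k : ℕ, |T^[k] n| = z
    · exact Or.inr ⟨hex, h⟩
    · left
      intro k
      push Not at hex
      have h1 := h k
      have h2 := hex k
      push_cast
      omega
  · rintro (h | h)
    · intro k
      have := h k
      push_cast at this
      omega
    · exact h.2

theorem disj_W (z : ℕ) : Disjoint (Wz (z + 1)) (Mn z) := by
  rw [Set.disjoint_left]
  rintro n h ⟨⟨k, hk⟩, _⟩
  have := h k
  push_cast at this
  omega

theorem dens_add' {s : ℤ} (hs : s = 1 ∨ s = -1) {S R : Set ℤ} (hS : AInv S) (hR : AInv R) (hU : AInv (S ∪ R))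
    (h : Disjoint S R) : dens s (S ∪ R) = dens s S + dens s R := by
  refine tendsto_nhds_unique (tendsto_dens' hs hU) ?_
  refine ((tendsto_dens' hs hS).add (tendsto_dens' hs hR)).congr fun X => ?_
  rw [cnt_add s h X]
  push_cast
  ring

theorem dens_nonneg' {s : ℤ} (hs : s = 1 ∨ s = -1) {S : Set ℤ} (hS : AInv S) : 0 ≤ dens s S :=
  ge_of_tendsto' (tendsto_dens' hs hS) fun X => by positivity

theorem dens_W {C b : ℝ} (hV : ∀ s : ℤ, (s = 1 ∨ s = -1) → ∀ (X : ℕ) (Z : ℝ), 1 ≤ X → 1 ≤ Z →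
    (cnt s (Late X Z) X : ℝ) ≤ C * X / Z ^ b) {s : ℤ} (hs : s = 1 ∨ s = -1) {z : ℕ} (hz : 1 ≤ z) :
    dens s (Wz z) ≤ C / (z : ℝ) ^ b := by
  refine dens_le hs (ainv_W z) fun X hX => ?_
  have hz1 : (1 : ℝ) ≤ z := by exact_mod_cast hz
  have h1 : cnt s (Wz z) X ≤ cnt s (Late X z) X := by
    refine cnt_mono s (fun n hn => ?_) X
    rintro ⟨k, _, hk⟩
    have h2 : ((z : ℤ) : ℝ) ≤ ((|T^[k] n| : ℤ) : ℝ) := by exact_mod_cast hn k
    push_cast at h2
    linarith
  have h2 : (cnt s (Wz z) X : ℝ) ≤ cnt s (Late X z) X := by exact_mod_cast h1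
  refine (h2.trans (hV s hs X z hX hz1)).trans (le_of_eq (by ring))

theorem sum_M {s : ℤ} (hs : s = 1 ∨ s = -1) (z : ℕ) :
    ∑ m ∈ range z, dens s (Mn m) = 1 - dens s (Wz z) := by
  induction z with
  | zero =>
    have h1 : Wz 0 = Set.univ := by
      ext n
      simp only [Wz, Set.mem_ofPred_eq, Set.mem_univ, iff_true]
      intro k
      simp
    rw [sum_range_zero, h1, dens_univ nd_all hs]
    ring
  | succ z ih =>
    rw [sum_range_succ, ih]
    have h1 : dens s (Wz z) = dens s (Wz (z + 1)) + dens s (Mn z) := by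
      have h2 := dens_add' hs (ainv_W (z + 1)) (ainv_M z) (W_succ z ▸ ainv_W z) (disj_W z)
      rwa [← W_succ z] at h2
    rw [h1]
    ring

theorem min_hasSum {C b : ℝ} (hb : 0 < b)
    (hV : ∀ s : ℤ, (s = 1 ∨ s = -1) → ∀ (X : ℕ) (Z : ℝ), 1 ≤ X → 1 ≤ Z →
    (cnt s (Late X Z) X : ℝ) ≤ C * X / Z ^ b) {s : ℤ} (hs : s = 1 ∨ s = -1) :
    HasSum (fun m : ℕ => dens s (Mn m)) 1 := by
  rw [hasSum_iff_tendsto_nat_of_nonneg (fun m => dens_nonneg' hs (ainv_M m))]
  have h1 : Tendsto (fun z : ℕ => dens s (Wz z)) atTop (𝓝 0) := by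
    have h2 : Tendsto (fun z : ℕ => C / (z : ℝ) ^ b) atTop (𝓝 0) :=
      tendsto_const_nhds.div_atTop ((tendsto_rpow_atTop hb).comp tendsto_natCast_atTop_atTop)
    refine squeeze_zero' (Eventually.of_forall fun z => dens_nonneg' hs (ainv_W z)) ?_ h2
    filter_upwards [eventually_ge_atTop 1] with z hz
    exact dens_W hV hs hz
  have h3 : Tendsto (fun z : ℕ => 1 - dens s (Wz z)) atTop (𝓝 (1 - 0)) := tendsto_const_nhds.sub h1
  rw [sub_zero] at h3
  exact h3.congr fun z => (sum_M hs z).symm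

end Pool.Agent.helper18.VZ
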