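import Pool.Agent.helper18.VZ.Fin

/-!
# VZ: theorem V with the time `7 log X`
-/

namespace Pool.Agent.helper18.VZ

open Finset

/-- The tolerance used in the final count. -/
noncomputable def eps : ℝ := 1 / 16000

theorem eps_pos : 0 < eps := by norm_num [eps]

theorem eps_le : eps ≤ 1 / 1600 := by norm_num [eps]

theorem V_pow' {e : ℕ} (he : e ≤ 1) (hPB : PBst e) : ∃ C c : ℝ, 0 < C ∧ 0 < c ∧ ∀ L K : ℕ,
    ∃ B : Finset ℕ, (B.card : ℝ) ≤ C * 2 ^ L * Real.exp (-(c * K)) ∧ ∀ n < 2 ^ L, n ∉ B →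
      63 ≤ K ∧ ∃ i, Hit e K n i ∧ |(od e i n : ℝ) - i / 2| ≤ 7 * eps * L := by
  classical
  obtain ⟨C, hC, hPB⟩ := hPB
  have hε0 : 0 < eps := eps_pos
  have hsum : Summable (fun n : ℕ => (n : ℝ) ^ 3 * Real.exp (-(eps ^ 2) * n)) :=
    Real.summable_pow_mul_exp_neg_nat_mul 3 (by positivity)
  set S : ℝ := ∑' n : ℕ, (n : ℝ) ^ 3 * Real.exp (-(eps ^ 2) * n) with hS
  have hS0 : 0 ≤ S := tsum_nonneg fun n => by positivity
  refine ⟨4 * C * S + Real.exp (eps ^ 2 * 63), eps ^ 2, by positivity, by positivity, ?_⟩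
  intro L K
  rcases Nat.lt_or_ge K 63 with hK | hK
  · refine ⟨range (2 ^ L), ?_, fun n hn h => absurd (mem_range.2 hn) h⟩
    rw [card_range]
    have h1 : (1 : ℝ) ≤ Real.exp (eps ^ 2 * 63) * Real.exp (-(eps ^ 2 * K)) := by
      rw [← Real.exp_add]
      apply Real.one_le_exp
      have : (K : ℝ) ≤ 63 := by exact_mod_cast hK.le
      nlinarith [sq_nonneg eps]
    have h2 : (0 : ℝ) ≤ 4 * C * S * Real.exp (-(eps ^ 2 * K)) := by positivity
    have h3 : (0 : ℝ) < 2 ^ L := by positivity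
    push_cast
    calc (2 : ℝ) ^ L = 2 ^ L * 1 := by ring
      _ ≤ 2 ^ L * ((4 * C * S + Real.exp (eps ^ 2 * 63)) * Real.exp (-(eps ^ 2 * K))) := by
          apply mul_le_mul_of_nonneg_left _ h3.le
          linarith
      _ = _ := by ring
  · set E : ℕ → Finset ℕ := fun κ => (range (2 ^ L)).filter (fun n => Good e eps κ L n ∧
      ∃ j, Hit e κ n j ∧ ¬ Typ e eps κ ((Te e)^[j] n)) with hE
    refine ⟨(Ioc K L).biUnion E, ?_, ?_⟩
    · have h1 : (((Ioc K L).biUnion E).card : ℝ) ≤ ∑ κ ∈ Ioc K L, ((E κ).card : ℝ) := by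
        exact_mod_cast card_biUnion_le
      have h2 : ∀ κ ∈ Ioc K L, ((E κ).card : ℝ) ≤
          4 * C * 2 ^ L * Real.exp (-(eps ^ 2 * K)) * ((κ : ℝ) ^ 3 * Real.exp (-(eps ^ 2) * κ)) := by
        intro κ hκ
        rw [mem_Ioc] at hκ
        refine (scale_card he hε0 eps_le hC hPB (K := κ) (L := L) (by omega) hκ.2).trans ?_
        have h3 : Real.exp (-(2 * eps ^ 2 * κ)) ≤ Real.exp (-(eps ^ 2 * K)) * Real.exp (-(eps ^ 2) * κ) := by
          rw [← Real.exp_add]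
          apply Real.exp_le_exp.2
          have : (K : ℝ) ≤ κ := by exact_mod_cast hκ.1.le
          nlinarith [sq_nonneg eps]
        calc 4 * C * (κ : ℝ) ^ 3 * Real.exp (-(2 * eps ^ 2 * κ)) * 2 ^ L
            = (4 * C * (κ : ℝ) ^ 3 * 2 ^ L) * Real.exp (-(2 * eps ^ 2 * κ)) := by ring
          _ ≤ (4 * C * (κ : ℝ) ^ 3 * 2 ^ L) * (Real.exp (-(eps ^ 2 * K)) * Real.exp (-(eps ^ 2) * κ)) :=
              mul_le_mul_of_nonneg_left h3 (by positivity)
          _ = _ := by ring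
      have h3 := h1.trans (sum_le_sum h2)
      rw [← mul_sum] at h3
      have h4 : ∑ κ ∈ Ioc K L, ((κ : ℝ) ^ 3 * Real.exp (-(eps ^ 2) * κ)) ≤ S :=
        hsum.sum_le_tsum _ fun n _ => by positivity
      refine h3.trans ?_
      calc 4 * C * 2 ^ L * Real.exp (-(eps ^ 2 * K)) * ∑ κ ∈ Ioc K L, ((κ : ℝ) ^ 3 * Real.exp (-(eps ^ 2) * κ))
          ≤ 4 * C * 2 ^ L * Real.exp (-(eps ^ 2 * K)) * S :=
            mul_le_mul_of_nonneg_left h4 (by positivity)
        _ = (4 * C * S) * (2 ^ L * Real.exp (-(eps ^ 2 * K))) := by ring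
        _ ≤ (4 * C * S + Real.exp (eps ^ 2 * 63)) * (2 ^ L * Real.exp (-(eps ^ 2 * K))) := by
            apply mul_le_mul_of_nonneg_right _ (by positivity)
            linarith [Real.exp_pos (eps ^ 2 * 63)]
        _ = _ := by ring
    · intro n hn hnB
      refine ⟨hK, ?_⟩
      rcases Nat.lt_or_ge L K with h | h
      · refine ⟨0, ⟨?_, fun i hi => absurd hi (by omega)⟩, ?_⟩
        · have : 2 ^ L ≤ 2 ^ K := Nat.pow_le_pow_right (by norm_num) h.le
          simpa using lt_of_lt_of_le hn this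
        · simp only [od, CharP.cast_eq_zero, zero_div, sub_zero, abs_zero]
          positivity
      · have hG : Good e eps K L n := by
          by_contra hG
          obtain ⟨κ, h1, h2, h3, h4⟩ := not_good hG
          apply hnB
          rw [mem_biUnion]
          refine ⟨κ, mem_Ioc.2 ⟨h1, h2⟩, ?_⟩
          simp only [hE, mem_filter, mem_range]
          exact ⟨hn, h3, h4⟩
        obtain ⟨i, hi, _, h2⟩ := passage he hε0 eps_le hK L n h hn hG
        exact ⟨i, hi, h2⟩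

theorem od_mono {e i k n : ℕ} (h : i ≤ k) : od e i n ≤ od e k n := by
  obtain ⟨l, rfl⟩ := Nat.exists_eq_add_of_le h
  rw [od_add]
  omega

theorem log3 : 41 * Real.log 3 ≤ 65 * Real.log 2 := by
  have h : Real.log ((3 : ℝ) ^ 41) ≤ Real.log ((2 : ℝ) ^ 65) := by
    apply Real.log_le_log (by norm_num)
    norm_num
  rw [Real.log_pow, Real.log_pow] at h
  exact_mod_cast h

theorem time {e : ℕ} (he : e ≤ 1) {K L n i X : ℕ} (hK : 63 ≤ K) (hX : 1 ≤ X) (hn : n < 2 ^ L)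
    (hL : 2 ^ L ≤ 2 * X) (hi : Hit e K n i) (hod : |(od e i n : ℝ) - i / 2| ≤ 7 * eps * L) :
    (i : ℝ) ≤ 7 * Real.log X := by
  have hlX : 0 ≤ Real.log X := Real.log_nonneg (by exact_mod_cast hX)
  rcases Nat.eq_zero_or_pos i with h0 | h0
  · subst h0
    rw [Nat.cast_zero]
    linarith
  obtain ⟨k, rfl⟩ : ∃ k, i = k + 1 := ⟨i - 1, by omega⟩
  have hl2 := Real.log_two_gt_d9
  have hl2' := Real.log_two_lt_d9
  have hl3 := log3
  have hl30 : 0 < Real.log 3 := Real.log_pos (by norm_num)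
  have h1 := iter_up he (2 ^ K : ℝ) (by positivity) k n (fun l hl => by exact_mod_cast hi.2 l (by omega))
  have h2 : (2 : ℝ) ^ K ≤ ((Te e)^[k] n : ℕ) := by exact_mod_cast hi.2 k (by omega)
  have hn' : (n : ℝ) ≤ 2 ^ L := by exact_mod_cast hn.le
  have h3 : (2 : ℝ) ^ k * 2 ^ K ≤ 3 ^ (od e k n) * (1 + 1 / (3 * 2 ^ K)) ^ k * 2 ^ L := by
    calc (2 : ℝ) ^ k * 2 ^ K ≤ 2 ^ k * ((Te e)^[k] n : ℕ) := mul_le_mul_of_nonneg_left h2 (by positivity)
      _ ≤ 3 ^ (od e k n) * (1 + 1 / (3 * 2 ^ K)) ^ k * n := h1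
      _ ≤ _ := mul_le_mul_of_nonneg_left hn' (by positivity)
  have h4 := Real.log_le_log (by positivity) h3
  rw [Real.log_mul (by positivity) (by positivity), Real.log_mul (by positivity) (by positivity),
    Real.log_mul (by positivity) (by positivity), Real.log_pow, Real.log_pow, Real.log_pow, Real.log_pow,
    Real.log_pow] at h4
  have h5 : Real.log (1 + 1 / (3 * 2 ^ K)) ≤ 1 / 1000000 := by
    have h6 := Real.log_le_sub_one_of_pos (show (0 : ℝ) < 1 + 1 / (3 * 2 ^ K) by positivity)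
    have h7 : (1 : ℝ) / (3 * 2 ^ K) ≤ 1 / 1000000 := by
      apply one_div_le_one_div_of_le (by norm_num)
      have : (2 : ℝ) ^ 63 ≤ 2 ^ K := pow_le_pow_right₀ (by norm_num) hK
      have h8 : (1000000 : ℝ) ≤ 3 * 2 ^ 63 := by norm_num
      linarith
    linarith
  have h6 : (od e k n : ℝ) ≤ (k + 1) / 2 + 7 * eps * L := by
    have h7 : (od e k n : ℝ) ≤ od e (k + 1) n := by exact_mod_cast od_mono (Nat.le_succ k)
    have h8 := (abs_le.1 hod).2
    push_cast at h8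
    linarith
  have h7 : (od e k n : ℝ) * Real.log 3 ≤ ((k + 1) / 2 + 7 * eps * L) * (65 / 41 * Real.log 2) := by
    apply mul_le_mul h6 (by linarith) hl30.le
    have := eps_pos
    positivity
  have h8 : (L : ℝ) * Real.log 2 ≤ Real.log 2 + Real.log X := by
    have h9 : (2 : ℝ) ^ L ≤ 2 * X := by exact_mod_cast hL
    have h10 := Real.log_le_log (by positivity) h9
    rw [Real.log_pow, Real.log_mul (by norm_num) (by positivity)] at h10
    exact h10
  have hKr : (63 : ℝ) ≤ K := by exact_mod_cast hK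
  have h9 : (63 : ℝ) * Real.log 2 ≤ K * Real.log 2 := mul_le_mul_of_nonneg_right hKr (by linarith)
  have h10 : (k : ℝ) * Real.log (1 + 1 / (3 * 2 ^ K)) ≤ k * (1 / 1000000) :=
    mul_le_mul_of_nonneg_left h5 (Nat.cast_nonneg _)
  have h11 : ((k + 1) / 2 + 7 * eps * L) * (65 / 41 * Real.log 2) =
      (65 / 82) * ((k + 1) * Real.log 2) + (7 * 65 / (41 * 16000)) * (L * Real.log 2) := by
    unfold eps
    ring
  rw [h11] at h7
  have h12 : (k : ℝ) * (1 / 1000000) ≤ (1 / 500000) * (k * Real.log 2) := by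
    have : (k : ℝ) * 0.5 ≤ k * Real.log 2 := mul_le_mul_of_nonneg_left (by linarith) (Nat.cast_nonneg _)
    linarith
  -- collect
  have h13 : ((k : ℝ) + 1) * Real.log 2 * (17 / 82 - 1 / 500000) ≤ (1 + 455 / 656000) * Real.log X := by
    have h14 : (k : ℝ) * Real.log 2 + K * Real.log 2 ≤
        (65 / 82) * ((k + 1) * Real.log 2) + (7 * 65 / (41 * 16000)) * (L * Real.log 2) +
          k * (1 / 1000000) + L * Real.log 2 := by linarith
    linarith
  have h15 : ((k : ℝ) + 1) * 0.6931 ≤ (k + 1) * Real.log 2 :=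
    mul_le_mul_of_nonneg_left (by linarith) (by positivity)
  push_cast
  linarith

open Classical in
/-- **Theorem V**: for all `X ≥ 1`, `Z ≥ 1` all but `C X / Z ^ c` of the `n ≤ X` have an iterate of `s n` below `Z` in
absolute value, within `7 log X` steps. -/
theorem V {s : ℤ} {e : ℕ} (h : Sg s e) : ∃ C c : ℝ, 0 < C ∧ 0 < c ∧ ∀ (X : ℕ) (Z : ℝ), 1 ≤ X → 1 ≤ Z →
    (((Icc 1 X).filter (fun n : ℕ => ¬ ∃ k : ℕ, (k : ℝ) ≤ 7 * Real.log X ∧
      |((Pool.Agent.helper4.BAS.T^[k] (s * n) : ℤ) : ℝ)| < Z)).card : ℝ) ≤ C * X / Z ^ c := by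
  obtain ⟨C, c, hC, hc, hV⟩ := V_pow' h.le (pbst h)
  have hl : 0 < Real.log 2 := Real.log_pos (by norm_num)
  refine ⟨2 * C * Real.exp (2 * c), c / Real.log 2, by positivity, by positivity, ?_⟩
  intro X Z hX hZ
  set L := Nat.log 2 X + 1 with hL
  set K := Nat.log 2 ⌊Z⌋₊ with hK
  obtain ⟨B, hB, hgood⟩ := hV L K
  have hXL : X < 2 ^ L := Nat.lt_pow_succ_log_self (by norm_num) X
  have hLX : 2 ^ L ≤ 2 * X := by
    rw [hL, pow_succ]
    have := Nat.pow_log_le_self 2 (show X ≠ 0 by omega)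
    omega
  have hZ1 : 1 ≤ ⌊Z⌋₊ := Nat.one_le_floor_iff Z |>.2 hZ
  have hKZ : 2 ^ K ≤ ⌊Z⌋₊ := Nat.pow_log_le_self 2 (by omega)
  have hZK : ⌊Z⌋₊ < 2 ^ (K + 1) := Nat.lt_pow_succ_log_self (by norm_num) _
  have hKZ' : (2 : ℝ) ^ K ≤ Z := by
    have h1 : ((2 ^ K : ℕ) : ℝ) ≤ (⌊Z⌋₊ : ℝ) := by exact_mod_cast hKZ
    have h2 := Nat.floor_le (show 0 ≤ Z by linarith)
    push_cast at h1
    linarith
  have hZK' : Z ≤ 2 ^ (K + 2) := by
    have h1 : ((⌊Z⌋₊ : ℕ) : ℝ) + 1 ≤ 2 ^ (K + 1) := by exact_mod_cast hZK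
    have h2 := Nat.lt_floor_add_one Z
    have h3 : (2 : ℝ) ^ (K + 2) = 2 * 2 ^ (K + 1) := by ring
    have h4 : (0 : ℝ) < 2 ^ (K + 1) := by positivity
    linarith
  have hsub : (Icc 1 X).filter (fun n : ℕ => ¬ ∃ k : ℕ, (k : ℝ) ≤ 7 * Real.log X ∧
      |((Pool.Agent.helper4.BAS.T^[k] (s * n) : ℤ) : ℝ)| < Z) ⊆ B := by
    intro n hn
    rw [mem_filter, mem_Icc] at hn
    by_contra hnB
    obtain ⟨h63, i, hi, hod⟩ := hgood n (by omega) hnB
    apply hn.2
    refine ⟨i, time h.le h63 hX (by omega) hLX hi hod, ?_⟩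
    rw [iter_cast h]
    have h1 : |((s * ((Te e)^[i] n : ℕ) : ℤ) : ℝ)| = ((Te e)^[i] n : ℕ) := by
      have hs : |(s : ℝ)| = 1 := by
        rcases h with ⟨rfl, _⟩ | ⟨rfl, _⟩ <;> norm_num
      push_cast
      rw [abs_mul, hs, one_mul, abs_of_nonneg (Nat.cast_nonneg _)]
    rw [h1]
    have h2 : (((Te e)^[i] n : ℕ) : ℝ) < 2 ^ K := by exact_mod_cast hi.1
    linarith
  have h2 : (((Icc 1 X).filter (fun n : ℕ => ¬ ∃ k : ℕ, (k : ℝ) ≤ 7 * Real.log X ∧
      |((Pool.Agent.helper4.BAS.T^[k] (s * n) : ℤ) : ℝ)| < Z)).card : ℝ) ≤ B.card := by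
    exact_mod_cast card_le_card hsub
  refine (h2.trans hB).trans ?_
  have hZ0 : (0 : ℝ) < Z := by linarith
  have hZc : (0 : ℝ) < Z ^ (c / Real.log 2) := Real.rpow_pos_of_pos hZ0 _
  rw [le_div_iff₀ hZc]
  have h3 : Z ^ (c / Real.log 2) ≤ Real.exp (c * (K + 2)) := by
    calc Z ^ (c / Real.log 2) ≤ ((2 : ℝ) ^ (K + 2)) ^ (c / Real.log 2) :=
          Real.rpow_le_rpow hZ0.le hZK' (by positivity)
      _ = Real.exp (c * (K + 2)) := by
          rw [Real.rpow_def_of_pos (by positivity), Real.log_pow]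
          congr 1
          push_cast
          field_simp
  have h5 : (2 : ℝ) ^ L ≤ 2 * X := by exact_mod_cast hLX
  calc C * 2 ^ L * Real.exp (-(c * K)) * Z ^ (c / Real.log 2)
      ≤ C * (2 * X) * Real.exp (-(c * K)) * Real.exp (c * (K + 2)) := by
        apply mul_le_mul _ h3 hZc.le (by positivity)
        apply mul_le_mul_of_nonneg_right _ (Real.exp_pos _).le
        exact mul_le_mul_of_nonneg_left h5 hC.le
    _ = 2 * C * Real.exp (2 * c) * X := by
        rw [mul_assoc (C * (2 * X)), ← Real.exp_add,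
          show -(c * (K : ℝ)) + c * (K + 2) = 2 * c by ring]
        ring

end Pool.Agent.helper18.VZ
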