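import Pool.Agent.helper18.VZ.Time

/-!
# VZ: theorem V with the time `7 log n`
-/

namespace Pool.Agent.helper18.VZ

open Finset

theorem pow_sum (M : ℕ) : ∑ L ∈ range (M + 1), (2 : ℝ) ^ L ≤ 2 ^ (M + 1) := by
  induction M with
  | zero => norm_num
  | succ M ih =>
    rw [sum_range_succ]
    have : (2 : ℝ) ^ (M + 1 + 1) = 2 ^ (M + 1) + 2 ^ (M + 1) := by ring
    linarith

open Classical in
/-- **Theorem V**: for all `X ≥ 1`, `Z ≥ 1` all but `C X / Z ^ c` of the `n ≤ X` have an iterate of `s n` below `Z` in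
absolute value, within `7 log n` steps. -/
theorem VN {s : ℤ} {e : ℕ} (h : Sg s e) : ∃ C c : ℝ, 0 < C ∧ 0 < c ∧ ∀ (X : ℕ) (Z : ℝ), 1 ≤ X → 1 ≤ Z →
    (((Icc 1 X).filter (fun n : ℕ => ¬ ∃ k : ℕ, (k : ℝ) ≤ 7 * Real.log n ∧
      |((Pool.Agent.helper4.BAS.T^[k] (s * n) : ℤ) : ℝ)| < Z)).card : ℝ) ≤ C * X / Z ^ c := by
  obtain ⟨C, c, hC, hc, hV⟩ := V_pow' h.le (pbst h)
  have hl : 0 < Real.log 2 := Real.log_pos (by norm_num)
  refine ⟨4 * C * Real.exp (2 * c), c / Real.log 2, by positivity, by positivity, ?_⟩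
  intro X Z hX hZ
  set K := Nat.log 2 ⌊Z⌋₊ with hK
  set M := Nat.log 2 X + 1 with hM
  choose B hB hgood using fun L => hV L K
  have hMX : 2 ^ M ≤ 2 * X := by
    rw [hM, pow_succ]
    have := Nat.pow_log_le_self 2 (show X ≠ 0 by omega)
    omega
  have hZ1 : 1 ≤ ⌊Z⌋₊ := Nat.one_le_floor_iff Z |>.2 hZ
  have hKZ : 2 ^ K ≤ ⌊Z⌋₊ := Nat.pow_log_le_self 2 (by omega)
  have hZK : ⌊Z⌋₊ < 2 ^ (K + 1) := Nat.lt_pow_succ_log_self (by norm_num) _
  have hKZ' : (2 : ℝ) ^ K ≤ Z := by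
    have h1 : ((2 ^ K : ℕ) : ℝ) ≤ (⌊Z⌋₊ : ℝ) := by exact_mod_cast hKZ
    have h2 := Nat.floor_le (show 0 ≤ Z by linarith)
    push_cast at h1
    linarith
  have hZK' : Z ≤ 2 ^ (K + 2) := by
    have h1 : ((⌊Z⌋₊ : ℕ) : ℝ) + 1 ≤ 2 ^ (K + 1) := by exact_mod_cast hZK
    have h2 := Nat.lt_floor_add_one Z
    have h3 : (2 : ℝ) ^ (K + 2) = 2 * 2 ^ (K + 1) := by ring
    have h4 : (0 : ℝ) < 2 ^ (K + 1) := by positivity
    linarith
  have hsub : (Icc 1 X).filter (fun n : ℕ => ¬ ∃ k : ℕ, (k : ℝ) ≤ 7 * Real.log n ∧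
      |((Pool.Agent.helper4.BAS.T^[k] (s * n) : ℤ) : ℝ)| < Z) ⊆ (range (M + 1)).biUnion B := by
    intro n hn
    rw [mem_filter, mem_Icc] at hn
    obtain ⟨⟨hn1, hnX⟩, hn2⟩ := hn
    set L := Nat.log 2 n + 1 with hL
    have hnL : n < 2 ^ L := Nat.lt_pow_succ_log_self (by norm_num) n
    have hLn : 2 ^ L ≤ 2 * n := by
      rw [hL, pow_succ]
      have := Nat.pow_log_le_self 2 (show n ≠ 0 by omega)
      omega
    have hLM : L ≤ M := by
      have : Nat.log 2 n ≤ Nat.log 2 X := Nat.log_mono_right hnX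
      omega
    rw [mem_biUnion]
    refine ⟨L, mem_range.2 (by omega), ?_⟩
    by_contra hnB
    obtain ⟨h63, i, hi, hod⟩ := hgood L n hnL hnB
    apply hn2
    refine ⟨i, time h.le h63 hn1 hnL hLn hi hod, ?_⟩
    rw [iter_cast h]
    have h1 : |((s * ((Te e)^[i] n : ℕ) : ℤ) : ℝ)| = ((Te e)^[i] n : ℕ) := by
      have hs : |(s : ℝ)| = 1 := by
        rcases h with ⟨rfl, _⟩ | ⟨rfl, _⟩ <;> norm_num
      push_cast
      rw [abs_mul, hs, one_mul, abs_of_nonneg (Nat.cast_nonneg _)]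
    rw [h1]
    have h2 : (((Te e)^[i] n : ℕ) : ℝ) < 2 ^ K := by exact_mod_cast hi.1
    linarith
  have h2 : (((Icc 1 X).filter (fun n : ℕ => ¬ ∃ k : ℕ, (k : ℝ) ≤ 7 * Real.log n ∧
      |((Pool.Agent.helper4.BAS.T^[k] (s * n) : ℤ) : ℝ)| < Z)).card : ℝ) ≤
      ∑ L ∈ range (M + 1), ((B L).card : ℝ) := by
    exact_mod_cast (card_le_card hsub).trans card_biUnion_le
  have h2' : ∑ L ∈ range (M + 1), ((B L).card : ℝ) ≤ 2 * C * 2 ^ M * Real.exp (-(c * K)) := by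
    calc ∑ L ∈ range (M + 1), ((B L).card : ℝ) ≤
        ∑ L ∈ range (M + 1), (C * Real.exp (-(c * K))) * (2 : ℝ) ^ L := by
          refine sum_le_sum fun L _ => (hB L).trans (le_of_eq (by ring))
      _ = (C * Real.exp (-(c * K))) * ∑ L ∈ range (M + 1), (2 : ℝ) ^ L := by rw [mul_sum]
      _ ≤ (C * Real.exp (-(c * K))) * 2 ^ (M + 1) := mul_le_mul_of_nonneg_left (pow_sum M) (by positivity)
      _ = _ := by ring
  refine (h2.trans h2').trans ?_
  have hZ0 : (0 : ℝ) < Z := by linarith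
  have hZc : (0 : ℝ) < Z ^ (c / Real.log 2) := Real.rpow_pos_of_pos hZ0 _
  rw [le_div_iff₀ hZc]
  have h3 : Z ^ (c / Real.log 2) ≤ Real.exp (c * (K + 2)) := by
    calc Z ^ (c / Real.log 2) ≤ ((2 : ℝ) ^ (K + 2)) ^ (c / Real.log 2) :=
          Real.rpow_le_rpow hZ0.le hZK' (by positivity)
      _ = Real.exp (c * (K + 2)) := by
          rw [Real.rpow_def_of_pos (by positivity), Real.log_pow]
          congr 1
          push_cast
          field_simp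
  have h5 : (2 : ℝ) ^ M ≤ 2 * X := by exact_mod_cast hMX
  calc 2 * C * 2 ^ M * Real.exp (-(c * K)) * Z ^ (c / Real.log 2)
      ≤ 2 * C * (2 * X) * Real.exp (-(c * K)) * Real.exp (c * (K + 2)) := by
        apply mul_le_mul _ h3 hZc.le (by positivity)
        apply mul_le_mul_of_nonneg_right _ (Real.exp_pos _).le
        exact mul_le_mul_of_nonneg_left h5 (by positivity)
    _ = 4 * C * Real.exp (2 * c) * X := by
        rw [mul_assoc (2 * C * (2 * X)), ← Real.exp_add,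
          show -(c * (K : ℝ)) + c * (K + 2) = 2 * c by ring]
        ring

end Pool.Agent.helper18.VZ
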