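import Mathlib

/-!
# VZ: parity words of the 3x+1 map (e = 0) and of the 3x-1 map (e = 1), both tails, all prefixes
-/

namespace Pool.Agent.helper18.VZ

open Finset

/-- The `3x+1` map (`e = 0`) or the `3x-1` map (`e = 1`) on the natural numbers. -/
def Te (e n : ℕ) : ℕ := if n % 2 = 1 then (3 * n + 1) / 2 - e else n / 2

/-- The parity word of length `k`. -/
def word (e : ℕ) : ℕ → ℕ → List Bool
  | 0, _ => []
  | k + 1, n => (if n % 2 = 1 then true else false) :: word e k (Te e n)

/-- The number of odd terms among the first `k`. -/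
def od (e : ℕ) : ℕ → ℕ → ℕ
  | 0, _ => 0
  | k + 1, n => n % 2 + od e k (Te e n)

/-- The sum of `F` over all words of length `k`. -/
def Sm : ℕ → (List Bool → ℝ) → ℝ
  | 0, F => F []
  | k + 1, F => Sm k (fun w => F (true :: w)) + Sm k (fun w => F (false :: w))

theorem two_T_even {e n : ℕ} (h : n % 2 = 0) : 2 * Te e n = n := by
  unfold Te
  rw [if_neg (by omega)]
  omega

theorem two_T_odd {e n : ℕ} (he : e ≤ 1) (h : n % 2 = 1) : 2 * Te e n + 2 * e = 3 * n + 1 := by
  unfold Te
  rw [if_pos h]
  omega

theorem Sm_mul (k : ℕ) (c : ℝ) (F : List Bool → ℝ) : Sm k (fun w => c * F w) = c * Sm k F := by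
  induction k generalizing F with
  | zero => rfl
  | succ k ih =>
    show Sm k (fun w => c * F (true :: w)) + Sm k (fun w => c * F (false :: w)) = _
    rw [ih (fun w => F (true :: w)), ih (fun w => F (false :: w))]
    show _ = c * (_ + _)
    ring

/-- Sums over a set of integers which are distinct modulo `2 ^ k`. -/
theorem sum_le {e : ℕ} (he : e ≤ 1) (k : ℕ) : ∀ (F : List Bool → ℝ) (_ : ∀ w, 0 ≤ F w) (S : Finset ℕ)
    (_ : ∀ n ∈ S, ∀ m ∈ S, n ≡ m [MOD 2 ^ k] → n = m), ∑ n ∈ S, F (word e k n) ≤ Sm k F := by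
  induction k with
  | zero =>
    intro F hF S hS
    have h1 : S.card ≤ 1 := by
      rw [card_le_one]
      intro a ha b hb
      exact hS a ha b hb (by rw [pow_zero]; exact Nat.modEq_one)
    have h2 : ∑ n ∈ S, F (word e 0 n) = S.card * F [] := by
      simp [word, sum_const, nsmul_eq_mul]
    rw [h2]
    have h3 : (S.card : ℝ) ≤ 1 := by exact_mod_cast h1
    show _ ≤ F []
    nlinarith [hF []]
  | succ k ih =>
    intro F hF S hS
    classical
    have h1 : ∑ n ∈ S, F (word e (k + 1) n) =
        ∑ n ∈ S.filter (fun n => n % 2 = 1), F (true :: word e k (Te e n)) +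
        ∑ n ∈ S.filter (fun n => ¬ n % 2 = 1), F (false :: word e k (Te e n)) := by
      rw [← sum_filter_add_sum_filter_not S (fun n => n % 2 = 1)]
      congr 1
      · refine sum_congr rfl fun n hn => ?_
        have := (mem_filter.1 hn).2
        show F ((if n % 2 = 1 then true else false) :: word e k (Te e n)) = _
        rw [if_pos this]
      · refine sum_congr rfl fun n hn => ?_
        have := (mem_filter.1 hn).2
        show F ((if n % 2 = 1 then true else false) :: word e k (Te e n)) = _
        rw [if_neg this]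
    rw [h1]
    have inj1 : ∀ n ∈ S.filter (fun n => n % 2 = 1), ∀ m ∈ S.filter (fun n => n % 2 = 1),
        Te e n ≡ Te e m [MOD 2 ^ k] → n = m := by
      intro n hn m hm h
      rw [mem_filter] at hn hm
      refine hS n hn.1 m hm.1 ?_
      have e1 := two_T_odd he hn.2
      have e2 := two_T_odd he hm.2
      have h2 : 2 * Te e n + 2 * e ≡ 2 * Te e m + 2 * e [MOD 2 ^ (k + 1)] := by
        refine Nat.ModEq.add_right _ ?_
        rw [pow_succ']
        exact Nat.ModEq.mul_left' 2 h
      rw [e1, e2] at h2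
      have h3 : 3 * n ≡ 3 * m [MOD 2 ^ (k + 1)] := Nat.ModEq.add_right_cancel' 1 h2
      exact Nat.ModEq.cancel_left_of_coprime (by
        rw [Nat.gcd_comm]
        exact Nat.Coprime.pow_right (k + 1) (by norm_num)) h3
    have inj2 : ∀ n ∈ S.filter (fun n => ¬ n % 2 = 1), ∀ m ∈ S.filter (fun n => ¬ n % 2 = 1),
        Te e n ≡ Te e m [MOD 2 ^ k] → n = m := by
      intro n hn m hm h
      rw [mem_filter] at hn hm
      refine hS n hn.1 m hm.1 ?_
      have e1 := two_T_even (e := e) (n := n) (by omega)
      have e2 := two_T_even (e := e) (n := m) (by omega)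
      have h2 : 2 * Te e n ≡ 2 * Te e m [MOD 2 ^ (k + 1)] := by
        rw [pow_succ']
        exact Nat.ModEq.mul_left' 2 h
      rwa [e1, e2] at h2
    refine add_le_add ?_ ?_
    · have h2 : ∑ n ∈ S.filter (fun n => n % 2 = 1), F (true :: word e k (Te e n)) =
          ∑ m ∈ (S.filter (fun n => n % 2 = 1)).image (Te e), F (true :: word e k m) := by
        rw [sum_image]
        intro n hn m hm h
        exact inj1 n hn m hm (by rw [h])
      rw [h2]
      refine ih (fun w => F (true :: w)) (fun w => hF _) _ ?_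
      intro a ha b hb hab
      obtain ⟨n, hn, rfl⟩ := mem_image.1 ha
      obtain ⟨m, hm, rfl⟩ := mem_image.1 hb
      rw [inj1 n hn m hm hab]
    · have h2 : ∑ n ∈ S.filter (fun n => ¬ n % 2 = 1), F (false :: word e k (Te e n)) =
          ∑ m ∈ (S.filter (fun n => ¬ n % 2 = 1)).image (Te e), F (false :: word e k m) := by
        rw [sum_image]
        intro n hn m hm h
        exact inj2 n hn m hm (by rw [h])
      rw [h2]
      refine ih (fun w => F (false :: w)) (fun w => hF _) _ ?_
      intro a ha b hb hab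
      obtain ⟨n, hn, rfl⟩ := mem_image.1 ha
      obtain ⟨m, hm, rfl⟩ := mem_image.1 hb
      rw [inj2 n hn m hm hab]

theorem Sm_one (m : ℕ) : Sm m (fun _ => (1 : ℝ)) = 2 ^ m := by
  induction m with
  | zero => simp [Sm]
  | succ m ih =>
    show Sm m (fun _ => (1 : ℝ)) + Sm m (fun _ => (1 : ℝ)) = _
    rw [ih]
    ring

theorem Sm_take (b : Bool) (l m : ℕ) (u : ℝ) :
    Sm (l + m) (fun w => u ^ ((w.take l).count b)) = (1 + u) ^ l * 2 ^ m := by
  induction l with
  | zero =>
    simp only [List.take_zero, List.count_nil, pow_zero, Nat.zero_add, one_mul]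
    exact Sm_one m
  | succ l ih =>
    rw [show l + 1 + m = (l + m) + 1 by ring]
    show Sm (l + m) (fun w => u ^ (((true :: w).take (l + 1)).count b)) +
      Sm (l + m) (fun w => u ^ (((false :: w).take (l + 1)).count b)) = _
    have h1 : (fun w : List Bool => u ^ (((b :: w).take (l + 1)).count b)) =
        fun w => u * u ^ ((w.take l).count b) := by
      funext w
      rw [List.take_succ_cons, List.count_cons_self, pow_succ']
    have h2 : (fun w : List Bool => u ^ (((!b) :: w).take (l + 1)).count b) =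
        fun w => u ^ ((w.take l).count b) := by
      funext w
      rw [List.take_succ_cons, List.count_cons_of_ne (by cases b <;> decide)]
    cases b with
    | true =>
      rw [h1]
      simp only [Bool.not_true] at h2
      rw [h2, Sm_mul, ih]
      ring
    | false =>
      rw [h1]
      simp only [Bool.not_false] at h2
      rw [h2, Sm_mul, ih]
      ring

theorem od_le (e k n : ℕ) : od e k n ≤ k := by
  induction k generalizing n with
  | zero => exact le_rfl
  | succ k ih =>
    have := ih (Te e n)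
    show n % 2 + od e k (Te e n) ≤ k + 1
    omega

theorem count_take (e l m n : ℕ) : ((word e (l + m) n).take l).count true = od e l n := by
  induction l generalizing n with
  | zero => simp [od]
  | succ l ih =>
    rw [show l + 1 + m = (l + m) + 1 by ring]
    show (((if n % 2 = 1 then true else false) :: word e (l + m) (Te e n)).take (l + 1)).count true =
      n % 2 + od e l (Te e n)
    rw [List.take_succ_cons]
    rcases Nat.mod_two_eq_zero_or_one n with h | h
    · rw [if_neg (by omega), List.count_cons_of_ne (by decide), ih, h, zero_add]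
    · rw [if_pos h, List.count_cons_self, ih, h, add_comm]

theorem count_take_false (e l m n : ℕ) :
    ((word e (l + m) n).take l).count false + od e l n = l := by
  induction l generalizing n with
  | zero => simp [od]
  | succ l ih =>
    rw [show l + 1 + m = (l + m) + 1 by ring]
    show (((if n % 2 = 1 then true else false) :: word e (l + m) (Te e n)).take (l + 1)).count false +
      (n % 2 + od e l (Te e n)) = l + 1
    rw [List.take_succ_cons]
    have := ih (Te e n)
    rcases Nat.mod_two_eq_zero_or_one n with h | h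
    · rw [if_neg (by omega), List.count_cons_self]
      omega
    · rw [if_pos h, List.count_cons_of_ne (by decide)]
      omega

/-- The typical integers of scale `K`. -/
def Typ (e : ℕ) (ε : ℝ) (K y : ℕ) : Prop :=
  ∀ l ≤ K, |(od e l y : ℝ) - l / 2| ≤ ε * K

theorem one_add_exp (ε : ℝ) : 1 + Real.exp (4 * ε) ≤ 2 * Real.exp (2 * ε + 2 * ε ^ 2) := by
  have h1 : 1 + Real.exp (4 * ε) = 2 * (Real.exp (2 * ε) * Real.cosh (2 * ε)) := by
    rw [Real.cosh_eq]
    have e1 : Real.exp (4 * ε) = Real.exp (2 * ε) * Real.exp (2 * ε) := by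
      rw [← Real.exp_add]; ring_nf
    have e2 : Real.exp (2 * ε) * Real.exp (-(2 * ε)) = 1 := by
      rw [← Real.exp_add, add_neg_cancel, Real.exp_zero]
    rw [e1]
    nlinarith
  have h2 : Real.cosh (2 * ε) ≤ Real.exp (2 * ε ^ 2) := by
    refine (Real.cosh_le_exp_half_sq (2 * ε)).trans (le_of_eq ?_)
    congr 1
    ring
  rw [h1, Real.exp_add]
  have := mul_le_mul_of_nonneg_left h2 (Real.exp_pos (2 * ε)).le
  linarith

theorem tail {e : ℕ} (he : e ≤ 1) {ε : ℝ} (hε : 0 < ε) (b : Bool) (l m : ℕ) (S : Finset ℕ)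
    (hS : ∀ n ∈ S, ∀ m' ∈ S, n ≡ m' [MOD 2 ^ (l + m)] → n = m')
    (h : ∀ n ∈ S, (l : ℝ) / 2 + ε * (l + m) ≤ (((word e (l + m) n).take l).count b : ℕ)) :
    (S.card : ℝ) ≤ 2 ^ (l + m) * Real.exp (-(2 * ε ^ 2 * (l + m))) := by
  have h1 := sum_le he (l + m) (fun w => Real.exp (4 * ε) ^ ((w.take l).count b))
    (fun w => by positivity) S hS
  rw [Sm_take] at h1
  have h2 : (S.card : ℝ) * Real.exp (4 * ε * (l / 2 + ε * (l + m))) ≤
      ∑ n ∈ S, Real.exp (4 * ε) ^ (((word e (l + m) n).take l).count b) := by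
    rw [← nsmul_eq_mul]
    refine card_nsmul_le_sum S _ _ fun n hn => ?_
    rw [← Real.exp_nat_mul]
    apply Real.exp_le_exp.2
    have := h n hn
    nlinarith
  have h3 : (1 + Real.exp (4 * ε)) ^ l ≤ 2 ^ l * Real.exp (l * (2 * ε + 2 * ε ^ 2)) := by
    calc (1 + Real.exp (4 * ε)) ^ l ≤ (2 * Real.exp (2 * ε + 2 * ε ^ 2)) ^ l :=
          pow_le_pow_left₀ (by positivity) (one_add_exp ε) l
      _ = _ := by rw [mul_pow, ← Real.exp_nat_mul]
  have h4 : (1 + Real.exp (4 * ε)) ^ l * 2 ^ m ≤
      2 ^ (l + m) * Real.exp (l * (2 * ε + 2 * ε ^ 2)) := by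
    calc (1 + Real.exp (4 * ε)) ^ l * 2 ^ m ≤ (2 ^ l * Real.exp (l * (2 * ε + 2 * ε ^ 2))) * 2 ^ m :=
          mul_le_mul_of_nonneg_right h3 (by positivity)
      _ = _ := by rw [pow_add]; ring
  have h5 : (2 : ℝ) ^ (l + m) * Real.exp (l * (2 * ε + 2 * ε ^ 2)) ≤
      (2 ^ (l + m) * Real.exp (-(2 * ε ^ 2 * (l + m)))) *
        Real.exp (4 * ε * (l / 2 + ε * (l + m))) := by
    rw [mul_assoc, ← Real.exp_add]
    apply mul_le_mul_of_nonneg_left _ (by positivity)
    apply Real.exp_le_exp.2
    have : (0 : ℝ) ≤ ε ^ 2 * m := by positivity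
    nlinarith
  have h6 := ((h2.trans h1).trans h4).trans h5
  exact le_of_mul_le_mul_right h6 (Real.exp_pos _)

open Classical in
theorem card_bad {e : ℕ} (he : e ≤ 1) {ε : ℝ} (hε : 0 < ε) (K : ℕ) :
    (((range (2 ^ K)).filter (fun y => ¬ Typ e ε K y)).card : ℝ) ≤
      2 * (K + 1) * 2 ^ K * Real.exp (-(2 * ε ^ 2 * K)) := by
  set B : Bool → ℕ → Finset ℕ := fun b l => (range (2 ^ K)).filter
    (fun y => (l : ℝ) / 2 + ε * K ≤ (((word e K y).take l).count b : ℕ)) with hB
  have hsub : (range (2 ^ K)).filter (fun y => ¬ Typ e ε K y) ⊆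
      (range (K + 1)).biUnion (fun l => B true l ∪ B false l) := by
    intro y hy
    rw [mem_filter] at hy
    obtain ⟨hy1, hy2⟩ := hy
    unfold Typ at hy2
    push Not at hy2
    obtain ⟨l, hl, h3⟩ := hy2
    rw [mem_biUnion]
    refine ⟨l, mem_range.2 (by omega), ?_⟩
    rw [mem_union]
    obtain ⟨m, rfl⟩ := Nat.exists_eq_add_of_le hl
    have h4 := count_take e l m y
    have h5 := count_take_false e l m y
    have h5' : (((((word e (l + m) y).take l).count false : ℕ) : ℝ)) + od e l y = l := by
      exact_mod_cast h5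
    rw [lt_abs] at h3
    rcases h3 with h3 | h3
    · left
      simp only [hB, mem_filter]
      refine ⟨hy1, ?_⟩
      rw [h4]
      linarith
    · right
      simp only [hB, mem_filter]
      refine ⟨hy1, ?_⟩
      linarith
  have hcard : ∀ b, ∀ l ∈ range (K + 1), ((B b l).card : ℝ) ≤
      2 ^ K * Real.exp (-(2 * ε ^ 2 * K)) := by
    intro b l hl
    rw [mem_range] at hl
    obtain ⟨m, rfl⟩ := Nat.exists_eq_add_of_le (show l ≤ K by omega)
    have := tail he hε b l m (B b l) (by
      intro n hn m' hm' hnm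
      simp only [hB, mem_filter, mem_range] at hn hm'
      exact Nat.ModEq.eq_of_lt_of_lt hnm hn.1 hm'.1) (by
      intro n hn
      simp only [hB, mem_filter] at hn
      have := hn.2
      push_cast at this
      exact this)
    push_cast
    exact this
  have h1 : (((range (2 ^ K)).filter (fun y => ¬ Typ e ε K y)).card : ℝ) ≤
      ∑ l ∈ range (K + 1), ((B true l ∪ B false l).card : ℝ) := by
    exact_mod_cast (card_le_card hsub).trans card_biUnion_le
  refine h1.trans ?_
  have h2 : ∀ l ∈ range (K + 1), ((B true l ∪ B false l).card : ℝ) ≤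
      2 * (2 ^ K * Real.exp (-(2 * ε ^ 2 * K))) := by
    intro l hl
    have h3 : ((B true l ∪ B false l).card : ℝ) ≤ (B true l).card + (B false l).card := by
      exact_mod_cast card_union_le _ _
    have := hcard true l hl
    have := hcard false l hl
    linarith
  refine (sum_le_card_nsmul _ _ _ h2).trans (le_of_eq ?_)
  rw [card_range, nsmul_eq_mul]
  push_cast
  ring

end Pool.Agent.helper18.VZ
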